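import Mathlib

set_option autoImplicit false
open Filter Topology Complex

namespace Pool.Agent.H788R2.Heat

noncomputable section

/-- the sparse sequence `2^(4^j)` -/
def cc (j : ℕ) : ℕ := 2 ^ (4 ^ j)

/-- moduli of the zeros -/
def b (j : ℕ) : ℝ := (cc j : ℝ) ^ 2

/-- multiplicities `m_j = j b_j` -/
def m (j : ℕ) : ℕ := j * (cc j) ^ 2

lemma m_cast (j : ℕ) : (m j : ℝ) = j * b j := by simp [m, b]

lemma two_pow_le_cc (j : ℕ) : 2 ^ j ≤ cc j := by
  unfold cc
  apply Nat.pow_le_pow_right (by norm_num)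
  exact (Nat.lt_pow_self (by norm_num)).le

lemma two_le_cc (j : ℕ) : 2 ≤ cc j := by
  unfold cc
  calc 2 = 2 ^ 1 := by norm_num
    _ ≤ 2 ^ (4 ^ j) := Nat.pow_le_pow_right (by norm_num) (Nat.one_le_pow _ _ (by norm_num))

lemma cc_succ (j : ℕ) : cc (j + 1) = cc j ^ 4 := by
  unfold cc
  rw [← pow_mul, pow_succ]

lemma cc_mono : Monotone cc := by
  intro i j hij
  unfold cc
  exact Nat.pow_le_pow_right (by norm_num) (Nat.pow_le_pow_right (by norm_num) hij)

lemma cc_pow_le {j k : ℕ} (h : j < k) : cc j ^ 4 ≤ cc k := by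
  rw [← cc_succ]
  exact cc_mono h

lemma ccR (j : ℕ) : (2 : ℝ) ≤ cc j := by exact_mod_cast two_le_cc j

lemma b_pos (j : ℕ) : 0 < b j := by
  have := ccR j
  unfold b; positivity

lemma cc_le_b (j : ℕ) : (cc j : ℝ) ≤ b j := by
  have := ccR j
  unfold b; nlinarith

lemma nat_lt_cc (j : ℕ) : (j : ℝ) ≤ cc j := by
  have h1 : j ≤ 2 ^ j := (Nat.lt_pow_self (by norm_num)).le
  exact_mod_cast h1.trans (two_pow_le_cc j)

/-- the basic summable sequence -/
lemma summable_base : Summable (fun j : ℕ => (j : ℝ) / cc j) := by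
  have h1 : Summable (fun j : ℕ => (j : ℝ) * (1 / 2) ^ j) := by
    have := summable_pow_mul_geometric_of_norm_lt_one 1 (r := (1 / 2 : ℝ)) (by norm_num)
    simpa using this
  refine Summable.of_nonneg_of_le (fun j => by positivity) (fun j => ?_) h1
  rw [div_eq_mul_inv]
  apply mul_le_mul_of_nonneg_left _ (by positivity)
  rw [one_div, inv_pow]
  apply inv_anti₀ (by positivity)
  exact_mod_cast two_pow_le_cc j

/-- factors of the product -/
def q (j : ℕ) (z : ℂ) : ℂ := (1 - z ^ 2 / (b j : ℂ) ^ 2) ^ (m j)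

lemma exp_sub_one_le (x : ℝ) : Real.exp x - 1 ≤ x * Real.exp x := by
  have h1 := Real.add_one_le_exp (-x)
  have h2 : Real.exp x * Real.exp (-x) = 1 := by rw [← Real.exp_add]; simp
  nlinarith [Real.exp_pos x]

lemma norm_pow_sub_one (x : ℂ) (n : ℕ) : ‖(1 + x) ^ n - 1‖ ≤ Real.exp (n * ‖x‖) - 1 := by
  have := Finset.norm_prod_one_add_sub_one_le (Finset.range n) (fun _ => x)
  simpa using this

lemma norm_prod_pow_sub_one (N : ℕ) (x : ℕ → ℂ) (n : ℕ → ℕ) :
    ‖∏ j ∈ Finset.range N, (1 + x j) ^ (n j) - 1‖ ≤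
      Real.exp (∑ j ∈ Finset.range N, n j * ‖x j‖) - 1 := by
  induction N with
  | zero => simp
  | succ N ih =>
    rw [Finset.prod_range_succ, Finset.sum_range_succ, Real.exp_add]
    set p := ∏ j ∈ Finset.range N, (1 + x j) ^ (n j) with hp
    set e1 := Real.exp (∑ j ∈ Finset.range N, n j * ‖x j‖) with he1
    have h1 := norm_pow_sub_one (x N) (n N)
    set r := (1 + x N) ^ (n N) with hr
    set e2 := Real.exp (n N * ‖x N‖) with he2
    have h2 : p * r - 1 = (p - 1) * (r - 1) + (p - 1) + (r - 1) := by ring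
    rw [h2]
    have h3 : ‖(p - 1) * (r - 1)‖ ≤ (e1 - 1) * (e2 - 1) := by
      rw [norm_mul]
      exact mul_le_mul ih h1 (norm_nonneg _) ((norm_nonneg _).trans ih)
    calc _ ≤ ‖(p - 1) * (r - 1)‖ + ‖p - 1‖ + ‖r - 1‖ := norm_add₃_le
      _ ≤ (e1 - 1) * (e2 - 1) + (e1 - 1) + (e2 - 1) := by gcongr
      _ = e1 * e2 - 1 := by ring

lemma norm_q_sub_one (j : ℕ) (z : ℂ) : ‖q j z - 1‖ ≤ (j : ℝ) / cc j * (‖z‖ ^ 2 * Real.exp (‖z‖ ^ 2)) := by
  have h1 := norm_pow_sub_one (-(z ^ 2 / (b j : ℂ) ^ 2)) (m j)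
  have hb := b_pos j
  have hc := cc_le_b j
  have hc2 := ccR j
  have h2 : (m j : ℝ) * ‖-(z ^ 2 / (b j : ℂ) ^ 2)‖ = j / b j * ‖z‖ ^ 2 := by
    rw [norm_neg, norm_div, norm_pow, norm_pow, Complex.norm_real, Real.norm_of_nonneg hb.le, m_cast]
    field_simp
  rw [h2, ← sub_eq_add_neg] at h1
  have h3 : (j : ℝ) / b j ≤ j / cc j := by
    apply div_le_div_of_nonneg_left (by positivity) (by positivity) hc
  have h4 : (j : ℝ) / b j ≤ 1 := by
    rw [div_le_one hb]
    exact (nat_lt_cc j).trans hc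
  calc ‖q j z - 1‖ ≤ Real.exp (j / b j * ‖z‖ ^ 2) - 1 := h1
    _ ≤ (j / b j * ‖z‖ ^ 2) * Real.exp (j / b j * ‖z‖ ^ 2) := exp_sub_one_le _
    _ ≤ (j / cc j * ‖z‖ ^ 2) * Real.exp (1 * ‖z‖ ^ 2) := by gcongr
    _ = _ := by rw [one_mul]; ring

/-- the product -/
def h (z : ℂ) : ℂ := ∏' j, (1 + (q j z - 1))

lemma summable_q (z : ℂ) : Summable (fun j => ‖q j z - 1‖) :=
  Summable.of_nonneg_of_le (fun _ => norm_nonneg _) (fun j => norm_q_sub_one j z)
    (summable_base.mul_right _)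

lemma hasProd_h (z : ℂ) : HasProd (fun j => q j z) (h z) := by
  have := (multipliable_one_add_of_summable (summable_q z)).hasProd
  simpa [h] using this

lemma tendsto_h (z : ℂ) : Tendsto (fun N => ∏ j ∈ Finset.range N, q j z) atTop (𝓝 (h z)) :=
  (hasProd_h z).tendsto_prod_nat

lemma h_ne_zero {z : ℂ} (hz : ∀ j, q j z ≠ 0) : h z ≠ 0 := by
  unfold h
  exact tprod_one_add_ne_zero_of_summable (fun j => by simpa using hz j) (summable_q z)

lemma q_eq_zero {j : ℕ} {z : ℂ} (h0 : q j z = 0) : z.im = 0 := by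
  unfold q at h0
  have h2 : 1 - z ^ 2 / (b j : ℂ) ^ 2 = 0 := by
    by_contra hne
    exact (pow_ne_zero _ hne) h0
  have hb : (b j : ℂ) ≠ 0 := by exact_mod_cast (b_pos j).ne'
  have h3 : z ^ 2 = (b j : ℂ) ^ 2 := by
    field_simp at h2
    rw [mul_zero] at h2
    exact (sub_eq_zero.1 h2).symm
  rcases sq_eq_sq_iff_eq_or_eq_neg.1 h3 with h4 | h4 <;> rw [h4] <;> simp

lemma differentiable_q (j : ℕ) : Differentiable ℂ (q j) := by
  unfold q; fun_prop

lemma differentiable_h : Differentiable ℂ h := by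
  intro z
  set R : ℝ := ‖z‖ + 1 with hR
  have h1 : HasProdLocallyUniformlyOn (fun j z => 1 + (q j z - 1)) (fun z => ∏' j, (1 + (q j z - 1)))
      (Metric.ball (0 : ℂ) R) := by
    apply Summable.hasProdLocallyUniformlyOn_nat_one_add Metric.isOpen_ball
      (u := fun j => (j : ℝ) / cc j * (R ^ 2 * Real.exp (R ^ 2))) (summable_base.mul_right _)
    · refine Eventually.of_forall fun j x hx => (norm_q_sub_one j x).trans ?_
      have : ‖x‖ ≤ R := by simpa using (Metric.mem_ball.1 hx).le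
      gcongr
    · intro j
      exact ((differentiable_q j).continuous.sub continuous_const).continuousOn
  have h2 : TendstoLocallyUniformlyOn (fun (s : Finset ℕ) z => ∏ j ∈ s, (1 + (q j z - 1))) h atTop
      (Metric.ball (0 : ℂ) R) :=
    hasProdLocallyUniformlyOn_iff_tendstoLocallyUniformlyOn.1 h1
  have h3 := h2.differentiableOn (Eventually.of_forall fun s => by
    apply DifferentiableOn.fun_finsetProd
    intro j _
    exact (((differentiable_q j).sub_const 1).const_add 1).differentiableOn) Metric.isOpen_ball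
  exact h3.differentiableAt (Metric.isOpen_ball.mem_nhds (by simp [hR]))

lemma q_neg (j : ℕ) (z : ℂ) : q j (-z) = q j z := by
  unfold q; rw [neg_sq]

lemma h_neg (z : ℂ) : h (-z) = h z := by
  unfold h; simp_rw [q_neg]

lemma q_real (j : ℕ) (x : ℝ) : q j x = (((1 - x ^ 2 / (b j) ^ 2) ^ (m j) : ℝ) : ℂ) := by
  unfold q; push_cast; rfl

lemma h_real (x : ℝ) : (h x).im = 0 := by
  have h1 := tendsto_h (x : ℂ)
  have h2 := (Complex.continuous_im.tendsto _).comp h1
  have h3 : ∀ N, (∏ j ∈ Finset.range N, q j (x : ℂ)).im = 0 := by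
    intro N
    simp_rw [q_real]
    rw [← Complex.ofReal_prod]
    exact Complex.ofReal_im _
  have h4 : Tendsto (fun _ : ℕ => (0 : ℝ)) atTop (𝓝 (h x).im) := h2.congr h3
  exact (tendsto_nhds_unique h4 tendsto_const_nhds)

/-- growth of the product -/
lemma one_add_sq_le {x s : ℝ} (hx : 0 ≤ x) (hs : 1 ≤ s) (hs2 : s ≤ 2) :
    1 + x ^ 2 ≤ Real.exp (2 * x ^ s) := by
  have h1 : 1 + x ^ 2 ≤ (1 + x ^ s) ^ 2 := by
    rcases le_or_gt x 1 with h | h
    · have : x ^ 2 ≤ x ^ s := by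
        rcases hx.eq_or_lt with h0 | h0
        · rw [← h0, Real.zero_rpow (by linarith)]; norm_num
        · rw [← Real.rpow_natCast]
          exact Real.rpow_le_rpow_of_exponent_ge h0 h (by norm_num; exact hs2)
      have h3 : 0 ≤ x ^ s := Real.rpow_nonneg hx s
      nlinarith
    · have : x ≤ x ^ s := by
        calc x = x ^ (1 : ℝ) := (Real.rpow_one x).symm
          _ ≤ x ^ s := Real.rpow_le_rpow_of_exponent_le h.le hs
      nlinarith
  have h2 : 1 + x ^ s ≤ Real.exp (x ^ s) := by linarith [Real.add_one_le_exp (x ^ s)]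
  calc 1 + x ^ 2 ≤ (1 + x ^ s) ^ 2 := h1
    _ ≤ (Real.exp (x ^ s)) ^ 2 := by
        apply pow_le_pow_left₀ _ h2
        have := Real.rpow_nonneg hx s
        linarith
    _ = Real.exp (2 * x ^ s) := by rw [← Real.exp_nat_mul]; norm_num

lemma norm_q_le (j : ℕ) (z : ℂ) {s : ℝ} (hs : 1 ≤ s) (hs2 : s ≤ 2) :
    ‖q j z‖ ≤ Real.exp (2 * ‖z‖ ^ s * ((j : ℝ) * (b j) ^ (1 - s))) := by
  have hb := b_pos j
  have h1 : ‖1 - z ^ 2 / (b j : ℂ) ^ 2‖ ≤ 1 + (‖z‖ / b j) ^ 2 := by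
    refine (norm_sub_le _ _).trans ?_
    rw [norm_one, norm_div, norm_pow, norm_pow, Complex.norm_real, Real.norm_of_nonneg hb.le, div_pow]
  have h2 := one_add_sq_le (x := ‖z‖ / b j) (by positivity) hs hs2
  unfold q
  rw [norm_pow]
  calc ‖1 - z ^ 2 / (b j : ℂ) ^ 2‖ ^ (m j) ≤ (Real.exp (2 * (‖z‖ / b j) ^ s)) ^ (m j) :=
        pow_le_pow_left₀ (norm_nonneg _) (h1.trans h2) _
    _ = Real.exp (m j * (2 * (‖z‖ / b j) ^ s)) := by rw [← Real.exp_nat_mul]
    _ = _ := by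
        congr 1
        rw [m_cast, Real.div_rpow (norm_nonneg z) hb.le, Real.rpow_sub hb, Real.rpow_one]
        ring

lemma summable_growth {s : ℝ} (hs : 1 < s) : Summable (fun j : ℕ => (j : ℝ) * (b j) ^ (1 - s)) := by
  have h2 : (0 : ℝ) < 2 := by norm_num
  set r : ℝ := (2 : ℝ) ^ (1 - s) with hr
  have hr1 : r < 1 := by
    rw [hr]
    exact Real.rpow_lt_one_of_one_lt_of_neg (by norm_num) (by linarith)
  have hr0 : 0 < r := Real.rpow_pos_of_pos h2 _
  have h1 : Summable (fun j : ℕ => (j : ℝ) * r ^ j) := by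
    have := summable_pow_mul_geometric_of_norm_lt_one 1 (r := r) (by
      rw [Real.norm_of_nonneg hr0.le]; exact hr1)
    simpa using this
  refine Summable.of_nonneg_of_le (fun j => ?_) (fun j => ?_) h1
  · have := b_pos j; positivity
  · apply mul_le_mul_of_nonneg_left _ (by positivity)
    have h3 : (2 : ℝ) ^ j ≤ b j := by
      refine le_trans ?_ (cc_le_b j)
      exact_mod_cast two_pow_le_cc j
    calc (b j) ^ (1 - s) ≤ ((2 : ℝ) ^ j) ^ (1 - s) :=
          Real.rpow_le_rpow_of_nonpos (by positivity) h3 (by linarith)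
      _ = r ^ j := by
          rw [hr, ← Real.rpow_natCast, ← Real.rpow_natCast, ← Real.rpow_mul h2.le,
            ← Real.rpow_mul h2.le, mul_comm]

lemma h_growth {s : ℝ} (hs : 1 < s) (hs2 : s ≤ 2) : ∃ C : ℝ, 0 ≤ C ∧
    ∀ z : ℂ, ‖h z‖ ≤ Real.exp (C * ‖z‖ ^ s) := by
  have h1 := summable_growth hs
  refine ⟨2 * ∑' j : ℕ, (j : ℝ) * (b j) ^ (1 - s), ?_, fun z => ?_⟩
  · have : 0 ≤ ∑' j : ℕ, (j : ℝ) * (b j) ^ (1 - s) := tsum_nonneg fun j => by
      have := b_pos j; positivity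
    positivity
  · have h2 := (tendsto_h z).norm
    refine le_of_tendsto h2 (Eventually.of_forall fun N => ?_)
    rw [norm_prod]
    calc ∏ j ∈ Finset.range N, ‖q j z‖
        ≤ ∏ j ∈ Finset.range N, Real.exp (2 * ‖z‖ ^ s * ((j : ℝ) * (b j) ^ (1 - s))) :=
          Finset.prod_le_prod (fun _ _ => norm_nonneg _) fun j _ => norm_q_le j z hs.le hs2
      _ = Real.exp (2 * ‖z‖ ^ s * ∑ j ∈ Finset.range N, ((j : ℝ) * (b j) ^ (1 - s))) := by
          rw [← Real.exp_sum, Finset.mul_sum]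
      _ ≤ _ := by
          apply Real.exp_le_exp.2
          have h3 : ∑ j ∈ Finset.range N, ((j : ℝ) * (b j) ^ (1 - s)) ≤
              ∑' j : ℕ, (j : ℝ) * (b j) ^ (1 - s) :=
            h1.sum_le_tsum _ fun j _ => by have := b_pos j; positivity
          have h4 : 0 ≤ ‖z‖ ^ s := Real.rpow_nonneg (norm_nonneg z) s
          nlinarith

/-- lower bound on the imaginary axis -/
lemma h_lower (k : ℕ) : Real.exp (k * Real.log 2 * b k) ≤ ‖h ((b k : ℂ) * I)‖ := by
  have h2 := (tendsto_h ((b k : ℂ) * I)).norm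
  have hb := b_pos k
  have hq : ∀ j, 1 ≤ ‖q j ((b k : ℂ) * I)‖ := by
    intro j
    unfold q
    rw [norm_pow]
    apply one_le_pow₀
    have : (1 : ℂ) - ((b k : ℂ) * I) ^ 2 / (b j : ℂ) ^ 2 = ((1 + (b k) ^ 2 / (b j) ^ 2 : ℝ) : ℂ) := by
      rw [mul_pow, I_sq]; push_cast; ring
    rw [this, Complex.norm_real, Real.norm_of_nonneg (by positivity)]
    have : 0 ≤ (b k) ^ 2 / (b j) ^ 2 := by positivity
    linarith
  have hk : ‖q k ((b k : ℂ) * I)‖ = 2 ^ (m k) := by
    unfold q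
    rw [norm_pow]
    have hbc : (b k : ℂ) ≠ 0 := by exact_mod_cast hb.ne'
    have : (1 : ℂ) - ((b k : ℂ) * I) ^ 2 / (b k : ℂ) ^ 2 = 2 := by
      rw [mul_pow, I_sq]; field_simp; norm_num
    rw [this]; norm_num
  refine ge_of_tendsto h2 ?_
  filter_upwards [eventually_gt_atTop k] with N hN
  rw [norm_prod]
  calc Real.exp (k * Real.log 2 * b k) = 2 ^ (m k) := by
        rw [← Real.rpow_natCast, Real.rpow_def_of_pos (by norm_num), m_cast]
        congr 1; ring
    _ = 1 * ‖q k ((b k : ℂ) * I)‖ := by rw [one_mul, hk]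
    _ ≤ (∏ j ∈ (Finset.range N).erase k, ‖q j ((b k : ℂ) * I)‖) * ‖q k ((b k : ℂ) * I)‖ := by
        apply mul_le_mul_of_nonneg_right _ (norm_nonneg _)
        calc (1 : ℝ) = ∏ j ∈ (Finset.range N).erase k, (1 : ℝ) := by rw [Finset.prod_const_one]
          _ ≤ _ := Finset.prod_le_prod (fun _ _ => zero_le_one) (fun i _ => hq i)
    _ = ∏ j ∈ Finset.range N, ‖q j ((b k : ℂ) * I)‖ :=
        Finset.prod_erase_mul _ _ (by simpa using hN)

end

end Pool.Agent.H788R2.Heat
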