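import Mathlib
import Pool.Agent.H788R2.Heat1

set_option autoImplicit false
open Filter Topology Complex

namespace Pool.Agent.H788R2.Heat

noncomputable section

/-- centres between the clusters -/
def XX (k : ℕ) : ℝ := 2 * Real.pi * (b k) ^ 2

/-- terms of the error sum -/
def ter (k j : ℕ) : ℝ := (m j : ℝ) * (2 * XX k + 1) / |(b j) ^ 2 - (XX k) ^ 2|

lemma four_le_b (j : ℕ) : 4 ≤ b j := by
  have := ccR j
  unfold b; nlinarith

lemma XX_lower (k : ℕ) : 6 * (b k) ^ 2 ≤ XX k := by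
  unfold XX
  have := Real.pi_gt_three
  have h2 : 0 ≤ (b k) ^ 2 := by positivity
  nlinarith

lemma XX_upper (k : ℕ) : XX k ≤ 7 * (b k) ^ 2 := by
  unfold XX
  have := Real.pi_lt_d2
  have h2 : 0 ≤ (b k) ^ 2 := by positivity
  nlinarith

lemma XX_pos (k : ℕ) : 0 < XX k := by
  have := XX_lower k
  have := b_pos k
  nlinarith [sq_nonneg (b k)]

lemma b_mono {j k : ℕ} (h : j ≤ k) : b j ≤ b k := by
  unfold b
  have : (cc j : ℝ) ≤ cc k := by exact_mod_cast cc_mono h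
  have := ccR j
  gcongr

/-- case `j ≤ k` -/
lemma den_small {j k : ℕ} (h : j ≤ k) : (XX k) ^ 2 / 2 ≤ |(b j) ^ 2 - (XX k) ^ 2| := by
  have h1 := XX_lower k
  have h2 := b_mono h
  have h3 := four_le_b j
  have h4 : b j ≤ XX k / 6 := by nlinarith
  rw [abs_sub_comm]
  refine le_trans ?_ (le_abs_self _)
  have h5 : (b j) ^ 2 ≤ (XX k / 6) ^ 2 := by gcongr
  nlinarith [sq_nonneg (XX k)]

lemma ter_small {j k : ℕ} (h : j ≤ k) : ter k j ≤ (6 * (j * b j)) / XX k := by
  have hX := XX_pos k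
  have hX1 : 1 ≤ XX k := by
    have := XX_lower k
    have := four_le_b k
    nlinarith
  unfold ter
  rw [m_cast]
  have hb := b_pos j
  calc (j : ℝ) * b j * (2 * XX k + 1) / |(b j) ^ 2 - (XX k) ^ 2|
      ≤ (j : ℝ) * b j * (3 * XX k) / ((XX k) ^ 2 / 2) := by
        apply div_le_div₀ (by positivity) _ (by positivity) (den_small h)
        apply mul_le_mul_of_nonneg_left _ (by positivity)
        linarith
    _ = _ := by field_simp; ring

/-- case `k < j` -/
lemma den_large {j k : ℕ} (h : k < j) : XX k ≤ 7 * cc j ∧ (b j) / 2 * (b j) ≤ |(b j) ^ 2 - (XX k) ^ 2| ∧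
    (cc j : ℝ) ^ 2 = b j := by
  have h1 := XX_upper k
  have h2 : ((cc k : ℝ)) ^ 4 ≤ cc j := by exact_mod_cast cc_pow_le h
  have h3 : (b k) ^ 2 ≤ cc j := by
    unfold b
    rw [← pow_mul]
    exact h2
  have h4 : XX k ≤ 7 * cc j := by linarith
  have h16 : (16 : ℝ) ≤ cc j := by
    have := ccR k
    have h16 : (2 : ℝ) ^ 4 ≤ (cc k : ℝ) ^ 4 := by gcongr
    linarith
  have hX := XX_pos k
  refine ⟨h4, ?_, rfl⟩
  refine le_trans ?_ (le_abs_self _)
  have h5 : (XX k) ^ 2 ≤ (7 * (cc j : ℝ)) ^ 2 := by gcongr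
  have h6 : (7 * (cc j : ℝ)) ^ 2 = 49 * b j := by unfold b; ring
  have h7 : 256 ≤ b j := by unfold b; nlinarith
  nlinarith

lemma ter_large {j k : ℕ} (h : k < j) : ter k j ≤ 42 * ((j : ℝ) / cc j) := by
  obtain ⟨h1, h2, h3⟩ := den_large h
  have hX := XX_pos k
  have hX1 : 1 ≤ XX k := by
    have := XX_lower k
    have := four_le_b k
    nlinarith
  have hb := b_pos j
  have hc := ccR j
  unfold ter
  rw [m_cast]
  calc (j : ℝ) * b j * (2 * XX k + 1) / |(b j) ^ 2 - (XX k) ^ 2|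
      ≤ (j : ℝ) * b j * (21 * cc j) / (b j / 2 * b j) := by
        apply div_le_div₀ (by positivity) _ (by positivity) h2
        apply mul_le_mul_of_nonneg_left _ (by positivity)
        linarith
    _ = _ := by
        rw [← h3]; field_simp; ring

lemma ter_nonneg (k j : ℕ) : 0 ≤ ter k j := by
  have := XX_pos k
  unfold ter; positivity

lemma ter_le (k j : ℕ) : ter k j ≤ 42 * ((j : ℝ) / cc j) := by
  rcases lt_or_ge k j with h | h
  · exact ter_large h
  · refine (ter_small h).trans ?_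
    have h1 := XX_lower k
    have h2 := b_mono h
    have h3 := four_le_b j
    have h4 := cc_le_b j
    have hc := ccR j
    have hX : 6 * (b j) ^ 2 ≤ XX k := by nlinarith
    calc 6 * ((j : ℝ) * b j) / XX k ≤ 6 * ((j : ℝ) * b j) / (6 * (b j) ^ 2) := by
          apply div_le_div_of_nonneg_left (by positivity) (by positivity) hX
      _ = (j : ℝ) / b j := by field_simp
      _ ≤ (j : ℝ) / cc j := by
          apply div_le_div_of_nonneg_left (by positivity) (by positivity) h4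
      _ ≤ 42 * ((j : ℝ) / cc j) := by
          have : 0 ≤ (j : ℝ) / cc j := by positivity
          linarith

lemma summable_ter (k : ℕ) : Summable (ter k) :=
  Summable.of_nonneg_of_le (ter_nonneg k) (ter_le k) (summable_base.mul_left 42)

/-- the error parameter -/
def eta (k : ℕ) : ℝ := ∑' j, ter k j

lemma eta_nonneg (k : ℕ) : 0 ≤ eta k := tsum_nonneg (ter_nonneg k)

lemma tendsto_XX : Tendsto XX atTop atTop := by
  refine tendsto_atTop_mono (f := fun k : ℕ => (k : ℝ)) (fun k => ?_) tendsto_natCast_atTop_atTop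
  have h1 := XX_lower k
  have h2 := nat_lt_cc k
  have h3 := cc_le_b k
  have h4 := four_le_b k
  nlinarith

lemma tendsto_eta : Tendsto eta atTop (𝓝 0) := by
  have h0 : (0 : ℝ) = ∑' _ : ℕ, (0 : ℝ) := by simp
  rw [h0]
  refine tendsto_tsum_of_dominated_convergence (bound := fun j : ℕ => 42 * ((j : ℝ) / cc j))
    (summable_base.mul_left 42) (fun j => ?_) (Eventually.of_forall fun k j => ?_)
  · have h1 : Tendsto (fun k => (6 * ((j : ℝ) * b j)) / XX k) atTop (𝓝 0) :=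
      tendsto_XX.const_div_atTop _
    refine squeeze_zero' (Eventually.of_forall fun k => ter_nonneg k j) ?_ h1
    filter_upwards [eventually_ge_atTop j] with k hk
    exact ter_small hk
  · rw [Real.norm_of_nonneg (ter_nonneg k j)]
    exact ter_le k j

lemma den_ne_zero (k j : ℕ) : (b j) ^ 2 - (XX k) ^ 2 ≠ 0 := by
  rcases lt_or_ge k j with h | h
  · have h1 := (den_large h).2.1
    have hb := b_pos j
    intro h0
    rw [h0, abs_zero] at h1
    nlinarith
  · have h1 := den_small h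
    have hX := XX_pos k
    intro h0
    rw [h0, abs_zero] at h1
    nlinarith

lemma q_XX_ne_zero (k j : ℕ) : q j (XX k) ≠ 0 := by
  unfold q
  apply pow_ne_zero
  have hb : (b j : ℂ) ≠ 0 := by exact_mod_cast (b_pos j).ne'
  intro h0
  apply den_ne_zero k j
  field_simp at h0
  rw [mul_zero] at h0
  exact_mod_cast h0

lemma h_XX_ne_zero (k : ℕ) : h (XX k) ≠ 0 := h_ne_zero (q_XX_ne_zero k)

lemma h_local (k : ℕ) (u : ℂ) :
    ‖h (XX k + u) - h (XX k)‖ ≤ ‖h (XX k)‖ * (Real.exp (eta k * (‖u‖ + ‖u‖ ^ 2)) - 1) := by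
  set y : ℕ → ℂ := fun j => -((2 * XX k * u + u ^ 2) / ((b j : ℂ) ^ 2 - (XX k : ℂ) ^ 2)) with hy
  have hq : ∀ j, q j (XX k + u) = q j (XX k) * (1 + y j) ^ (m j) := by
    intro j
    unfold q
    rw [← mul_pow]
    congr 1
    have hb : (b j : ℂ) ≠ 0 := by exact_mod_cast (b_pos j).ne'
    have hd : (b j : ℂ) ^ 2 - (XX k : ℂ) ^ 2 ≠ 0 := by exact_mod_cast den_ne_zero k j
    simp only [hy]
    field_simp
    ring
  have hy2 : ∀ j, (m j : ℝ) * ‖y j‖ ≤ ter k j * (‖u‖ + ‖u‖ ^ 2) := by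
    intro j
    have hX := XX_pos k
    have hd : 0 < |(b j) ^ 2 - (XX k) ^ 2| := abs_pos.2 (den_ne_zero k j)
    have h1 : ‖((b j : ℂ) ^ 2 - (XX k : ℂ) ^ 2)‖ = |(b j) ^ 2 - (XX k) ^ 2| := by
      rw [← Complex.ofReal_pow, ← Complex.ofReal_pow, ← Complex.ofReal_sub, Complex.norm_real,
        Real.norm_eq_abs]
    have h2 : ‖2 * (XX k : ℂ) * u + u ^ 2‖ ≤ (2 * XX k + 1) * (‖u‖ + ‖u‖ ^ 2) := by
      calc ‖2 * (XX k : ℂ) * u + u ^ 2‖ ≤ ‖2 * (XX k : ℂ) * u‖ + ‖u ^ 2‖ := norm_add_le _ _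
        _ = 2 * XX k * ‖u‖ + ‖u‖ ^ 2 := by
            rw [norm_mul, norm_mul, norm_pow, Complex.norm_real, Real.norm_of_nonneg hX.le]
            norm_num
        _ ≤ _ := by nlinarith [norm_nonneg u, sq_nonneg ‖u‖, mul_nonneg hX.le (sq_nonneg ‖u‖)]
    simp only [hy]
    rw [norm_neg, norm_div, h1]
    unfold ter
    rw [mul_div_assoc', div_mul_eq_mul_div]
    apply div_le_div_of_nonneg_right _ hd.le
    calc (m j : ℝ) * ‖2 * (XX k : ℂ) * u + u ^ 2‖ ≤
        (m j : ℝ) * ((2 * XX k + 1) * (‖u‖ + ‖u‖ ^ 2)) :=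
          mul_le_mul_of_nonneg_left h2 (by positivity)
      _ = _ := by ring
  have h1 : Tendsto (fun N => ‖∏ j ∈ Finset.range N, q j (XX k + u) -
      ∏ j ∈ Finset.range N, q j (XX k)‖) atTop (𝓝 ‖h (XX k + u) - h (XX k)‖) :=
    ((tendsto_h _).sub (tendsto_h _)).norm
  have h2 : Tendsto (fun N => ‖∏ j ∈ Finset.range N, q j (XX k)‖ *
      (Real.exp (eta k * (‖u‖ + ‖u‖ ^ 2)) - 1)) atTop
      (𝓝 (‖h (XX k)‖ * (Real.exp (eta k * (‖u‖ + ‖u‖ ^ 2)) - 1))) :=
    (tendsto_h _).norm.mul_const _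
  refine le_of_tendsto_of_tendsto' h1 h2 fun N => ?_
  have h3 : ∏ j ∈ Finset.range N, q j (XX k + u) - ∏ j ∈ Finset.range N, q j (XX k) =
      (∏ j ∈ Finset.range N, q j (XX k)) * (∏ j ∈ Finset.range N, (1 + y j) ^ (m j) - 1) := by
    simp_rw [hq]
    rw [Finset.prod_mul_distrib]; ring
  rw [h3, norm_mul]
  apply mul_le_mul_of_nonneg_left _ (norm_nonneg _)
  refine (norm_prod_pow_sub_one N y m).trans ?_
  apply sub_le_sub_right
  apply Real.exp_le_exp.2
  calc ∑ j ∈ Finset.range N, (m j : ℝ) * ‖y j‖ ≤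
      ∑ j ∈ Finset.range N, ter k j * (‖u‖ + ‖u‖ ^ 2) := Finset.sum_le_sum fun j _ => hy2 j
    _ = (∑ j ∈ Finset.range N, ter k j) * (‖u‖ + ‖u‖ ^ 2) := by rw [Finset.sum_mul]
    _ ≤ eta k * (‖u‖ + ‖u‖ ^ 2) := by
        apply mul_le_mul_of_nonneg_right _ (by positivity)
        exact (summable_ter k).sum_le_tsum _ fun j _ => ter_nonneg k j

/-- terms of the heat operator at time one half -/
def ht (F : ℂ → ℂ) (n : ℕ) (w : ℂ) : ℂ :=
  ((-((1 / 2 : ℝ) : ℂ)) ^ n / (n.factorial : ℂ)) * iteratedDeriv (2 * n) F w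

/-- summable bound -/
def KK (n : ℕ) : ℝ := (1 / 4) ^ n * (3 * (81 + 7 * n) * Real.exp (12 + (n + 1) / 2))

lemma summable_KK : Summable KK := by
  have he : Real.exp (1 / 2) < 2 := by
    have h1 : Real.exp (1 / 2) ^ 2 = Real.exp 1 := by rw [← Real.exp_nat_mul]; norm_num
    have h2 := Real.exp_one_lt_d9
    by_contra h3
    push Not at h3
    nlinarith [Real.exp_pos (1 / 2)]
  set r : ℝ := Real.exp (1 / 2) / 4 with hr
  have hr0 : 0 < r := by rw [hr]; positivity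
  have hr1 : r < 1 := by rw [hr]; linarith
  have h1 : Summable (fun n : ℕ => (n : ℝ) * r ^ n) := by
    have := summable_pow_mul_geometric_of_norm_lt_one 1 (r := r) (by
      rw [Real.norm_of_nonneg hr0.le]; exact hr1)
    simpa using this
  have h2 : Summable (fun n : ℕ => r ^ n) := summable_geometric_of_lt_one hr0.le hr1
  have h3 := (h2.mul_left (243 * Real.exp (25 / 2))).add (h1.mul_left (21 * Real.exp (25 / 2)))
  refine h3.congr fun n => ?_
  unfold KK
  have h4 : Real.exp (12 + ((n : ℝ) + 1) / 2) = Real.exp (25 / 2) * Real.exp (1 / 2) ^ n := by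
    rw [← Real.exp_nat_mul, ← Real.exp_add]
    congr 1; ring
  rw [h4, hr, div_pow, one_div_pow]
  field_simp
  ring

lemma fact_bound (n : ℕ) : (1 / 2 : ℝ) ^ n / n.factorial * ((2 * n).factorial / (4 * ((n : ℝ) + 1)) ^ n) ≤
    (1 / 4) ^ n := by
  have h1 : ((2 * n).factorial : ℝ) ≤ n.factorial * (2 * n) ^ n := by
    have h2 := Nat.factorial_mul_ascFactorial n n
    have h3 := Nat.ascFactorial_le_pow_add n n
    have h4 : (2 * n).factorial ≤ n.factorial * (2 * n) ^ n := by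
      rw [two_mul, ← h2]
      exact Nat.mul_le_mul_left _ h3
    exact_mod_cast h4
  have hf : (0 : ℝ) < n.factorial := by positivity
  calc (1 / 2 : ℝ) ^ n / n.factorial * ((2 * n).factorial / (4 * ((n : ℝ) + 1)) ^ n)
      ≤ (1 / 2 : ℝ) ^ n / n.factorial * ((n.factorial * (2 * n) ^ n) / (4 * ((n : ℝ) + 1)) ^ n) := by
        gcongr
    _ = ((1 / 2) ^ n * (2 * n) ^ n) / (4 * ((n : ℝ) + 1)) ^ n := by field_simp
    _ = ((1 / 2) * (2 * n) / (4 * ((n : ℝ) + 1))) ^ n := by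
        rw [← mul_pow, ← div_pow]
    _ ≤ (1 / 4) ^ n := by
        apply pow_le_pow_left₀ (by positivity)
        rw [div_le_div_iff₀ (by positivity) (by norm_num)]
        ring_nf
        linarith

lemma ht_bound {F : ℂ → ℂ} (hF : Differentiable ℂ F) {η : ℝ} (h0 : 0 ≤ η) (h1 : η ≤ 1 / 28)
    (hb : ∀ u, ‖F u‖ ≤ 3 * Real.exp ‖u‖ * (Real.exp (η * (‖u‖ + ‖u‖ ^ 2)) - 1)) (n : ℕ) {w : ℂ}
    (hw : ‖w‖ ≤ 5) : ‖ht F n w‖ ≤ η * KK n := by
  set x : ℝ := (n : ℝ) + 1 with hx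
  have hx0 : 0 < x := by positivity
  set ρ : ℝ := 2 * Real.sqrt x with hρ
  have hs : 0 < Real.sqrt x := Real.sqrt_pos.2 hx0
  have hsq : Real.sqrt x ^ 2 = x := Real.sq_sqrt hx0.le
  have hρ0 : 0 < ρ := by positivity
  have hρ2 : ρ ^ 2 = 4 * x := by rw [hρ, mul_pow, hsq]; ring
  have hρx : ρ ≤ x / 4 + 4 := by
    rw [hρ]
    nlinarith [sq_nonneg (Real.sqrt x - 4)]
  set C : ℝ := 3 * Real.exp (5 + ρ) * (Real.exp (η * ((5 + ρ) + (5 + ρ) ^ 2)) - 1) with hC
  have hsph : ∀ z ∈ Metric.sphere w ρ, ‖F z‖ ≤ C := by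
    intro z hz
    have h2 : ‖z‖ ≤ 5 + ρ := by
      have : ‖z - w‖ = ρ := by simpa [dist_eq_norm] using hz
      calc ‖z‖ = ‖w + (z - w)‖ := by ring_nf
        _ ≤ ‖w‖ + ‖z - w‖ := norm_add_le _ _
        _ ≤ 5 + ρ := by rw [this]; linarith
    refine (hb z).trans ?_
    rw [hC]
    have h3 : 0 ≤ Real.exp (η * (‖z‖ + ‖z‖ ^ 2)) - 1 := by
      have : 0 ≤ η * (‖z‖ + ‖z‖ ^ 2) := by positivity
      linarith [Real.one_le_exp this]
    gcongr
  have h2 := Complex.norm_iteratedDeriv_le_of_forall_mem_sphere_norm_le (2 * n) hρ0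
    (hF.diffContOnCl) hsph
  have hCb : C ≤ η * (3 * (81 + 7 * n) * Real.exp (12 + (n + 1) / 2)) := by
    have h3 : η * ((5 + ρ) + (5 + ρ) ^ 2) ≤ η * (81 + 7 * n) := by
      apply mul_le_mul_of_nonneg_left _ h0
      have : (5 + ρ) ^ 2 = 25 + 10 * ρ + 4 * x := by rw [← hρ2]; ring
      rw [this]
      rw [hx] at *
      nlinarith
    have h4 : η * (81 + 7 * n) ≤ 3 + x / 4 := by
      have : η * (81 + 7 * n) ≤ 1 / 28 * (81 + 7 * n) := by gcongr
      rw [hx]
      linarith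
    have h5 : Real.exp (η * ((5 + ρ) + (5 + ρ) ^ 2)) - 1 ≤
        (η * (81 + 7 * n)) * Real.exp (3 + x / 4) := by
      calc Real.exp (η * ((5 + ρ) + (5 + ρ) ^ 2)) - 1 ≤ Real.exp (η * (81 + 7 * n)) - 1 := by
            gcongr
        _ ≤ (η * (81 + 7 * n)) * Real.exp (η * (81 + 7 * n)) := exp_sub_one_le _
        _ ≤ _ := by gcongr
    calc C ≤ 3 * Real.exp (9 + x / 4) * ((η * (81 + 7 * n)) * Real.exp (3 + x / 4)) := by
          rw [hC]
          have h6 : 0 ≤ Real.exp (η * ((5 + ρ) + (5 + ρ) ^ 2)) - 1 := by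
            have : 0 ≤ η * ((5 + ρ) + (5 + ρ) ^ 2) := by positivity
            linarith [Real.one_le_exp this]
          have h7 : Real.exp (5 + ρ) ≤ Real.exp (9 + x / 4) := Real.exp_le_exp.2 (by linarith)
          exact mul_le_mul (by linarith) h5 h6 (by positivity)
      _ = η * (3 * (81 + 7 * n) * (Real.exp (9 + x / 4) * Real.exp (3 + x / 4))) := by ring
      _ = _ := by
          rw [← Real.exp_add]
          congr 3
          rw [hx]; ring
  have hC0 : 0 ≤ C := by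
    have h6 : 0 ≤ Real.exp (η * ((5 + ρ) + (5 + ρ) ^ 2)) - 1 := by
      have : 0 ≤ η * ((5 + ρ) + (5 + ρ) ^ 2) := by positivity
      linarith [Real.one_le_exp this]
    rw [hC]
    positivity
  unfold ht
  rw [norm_mul, norm_div, norm_pow, norm_neg, Complex.norm_real, Real.norm_of_nonneg (by norm_num),
    Complex.norm_natCast]
  calc (1 / 2 : ℝ) ^ n / n.factorial * ‖iteratedDeriv (2 * n) F w‖
      ≤ (1 / 2 : ℝ) ^ n / n.factorial * ((2 * n).factorial * C / ρ ^ (2 * n)) := by gcongr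
    _ = ((1 / 2 : ℝ) ^ n / n.factorial * ((2 * n).factorial / (4 * ((n : ℝ) + 1)) ^ n)) * C := by
        rw [pow_mul, hρ2, hx]; ring
    _ ≤ (1 / 4) ^ n * (η * (3 * (81 + 7 * n) * Real.exp (12 + (n + 1) / 2))) := by
        gcongr
        exact fact_bound n
    _ = η * KK n := by unfold KK; ring

end

end Pool.Agent.H788R2.Heat
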