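import Mathlib
import Pool.Agent.H788R2.Heat2

set_option autoImplicit false
open Filter Topology Complex

namespace Pool.Agent.H788R2.Heat

noncomputable section

/-- the counterexample -/
def f (z : ℂ) : ℂ := (Complex.cos z + 2) * h z

lemma differentiable_f : Differentiable ℂ f :=
  (Complex.differentiable_cos.add_const 2).mul differentiable_h

lemma f_neg (z : ℂ) : f (-z) = f z := by
  unfold f; rw [Complex.cos_neg, h_neg]

lemma f_real (x : ℝ) : (f x).im = 0 := by
  unfold f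
  rw [Complex.mul_im, h_real, ← Complex.ofReal_cos]
  simp

lemma norm_cos_le (z : ℂ) : ‖Complex.cos z‖ ≤ Real.exp ‖z‖ := by
  unfold Complex.cos
  rw [norm_div]
  have h1 : ‖Complex.exp (z * I)‖ ≤ Real.exp ‖z‖ := by
    refine (Complex.norm_exp_le_exp_norm _).trans ?_
    simp
  have h2 : ‖Complex.exp (-z * I)‖ ≤ Real.exp ‖z‖ := by
    refine (Complex.norm_exp_le_exp_norm _).trans ?_
    simp
  have h3 := norm_add_le (Complex.exp (z * I)) (Complex.exp (-z * I))
  have h4 : ‖(2 : ℂ)‖ = 2 := by norm_num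
  rw [h4, div_le_iff₀ (by norm_num)]
  linarith

lemma norm_cos_add_le (z : ℂ) : ‖Complex.cos z + 2‖ ≤ 3 * Real.exp ‖z‖ := by
  have h1 := norm_cos_le z
  have h2 : 1 ≤ Real.exp ‖z‖ := Real.one_le_exp (norm_nonneg z)
  calc ‖Complex.cos z + 2‖ ≤ ‖Complex.cos z‖ + ‖(2 : ℂ)‖ := norm_add_le _ _
    _ ≤ 3 * Real.exp ‖z‖ := by norm_num; linarith

lemma f_growth (ε : ℝ) (hε : 0 < ε) :
    ∃ R : ℝ, ∀ z : ℂ, R ≤ ‖z‖ → ‖f z‖ ≤ Real.exp (‖z‖ ^ (1 + ε)) := by
  set d : ℝ := min ε 1 with hd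
  have hd0 : 0 < d := lt_min hε one_pos
  have hd1 : d ≤ 1 := min_le_right _ _
  have hdε : d ≤ ε := min_le_left _ _
  obtain ⟨C, hC0, hC⟩ := h_growth (s := 1 + d / 2) (by linarith) (by linarith)
  have hL : Tendsto (fun r : ℝ => r ^ (d / 2)) atTop atTop := tendsto_rpow_atTop (by positivity)
  obtain ⟨R, hR⟩ := eventually_atTop.1 (hL.eventually_ge_atTop (3 + C))
  refine ⟨max R 1, fun z hz => ?_⟩
  have hz1 : 1 ≤ ‖z‖ := (le_max_right _ _).trans hz
  have hzR := hR ‖z‖ ((le_max_left _ _).trans hz)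
  have hz0 : 0 < ‖z‖ := by linarith
  set r := ‖z‖ with hr
  have h3 : (3 : ℝ) ≤ Real.exp 2 := by
    have := Real.add_one_le_exp (2 : ℝ)
    linarith
  have h1 : r ≤ r ^ (1 + d / 2) := by
    calc r = r ^ (1 : ℝ) := (Real.rpow_one r).symm
      _ ≤ _ := Real.rpow_le_rpow_of_exponent_le hz1 (by linarith)
  have h11 : 1 ≤ r ^ (1 + d / 2) := hz1.trans h1
  calc ‖f z‖ = ‖Complex.cos z + 2‖ * ‖h z‖ := norm_mul _ _
    _ ≤ (3 * Real.exp r) * Real.exp (C * r ^ (1 + d / 2)) := by
        gcongr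
        · exact norm_cos_add_le z
        · exact hC z
    _ ≤ (Real.exp 2 * Real.exp r) * Real.exp (C * r ^ (1 + d / 2)) := by gcongr
    _ = Real.exp (2 + r + C * r ^ (1 + d / 2)) := by rw [← Real.exp_add, ← Real.exp_add]
    _ ≤ Real.exp ((3 + C) * r ^ (1 + d / 2)) := by
        apply Real.exp_le_exp.2
        nlinarith
    _ ≤ Real.exp (r ^ (d / 2) * r ^ (1 + d / 2)) := by
        apply Real.exp_le_exp.2
        apply mul_le_mul_of_nonneg_right hzR (by positivity)
    _ = Real.exp (r ^ (1 + d)) := by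
        rw [← Real.rpow_add hz0]; congr 2; ring
    _ ≤ Real.exp (r ^ (1 + ε)) := by
        apply Real.exp_le_exp.2
        exact Real.rpow_le_rpow_of_exponent_le hz1 (by linarith)

lemma tendsto_b : Tendsto b atTop atTop := by
  refine tendsto_atTop_mono (f := fun k : ℕ => (k : ℝ)) (fun k => ?_) tendsto_natCast_atTop_atTop
  exact (nat_lt_cc k).trans (cc_le_b k)

lemma f_maxtype (A R : ℝ) : ∃ z : ℂ, R ≤ ‖z‖ ∧ Real.exp (A * ‖z‖) < ‖f z‖ := by
  have h1 : ∀ᶠ k in atTop, R ≤ b k := tendsto_b.eventually_ge_atTop R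
  have h2 : ∀ᶠ k : ℕ in atTop, A ≤ (k : ℝ) * Real.log 2 := by
    have : Tendsto (fun k : ℕ => (k : ℝ) * Real.log 2) atTop atTop :=
      tendsto_natCast_atTop_atTop.atTop_mul_const (Real.log_pos (by norm_num))
    exact this.eventually_ge_atTop A
  obtain ⟨k, hk1, hk2⟩ := (h1.and h2).exists
  have hb := b_pos k
  have hn : ‖(b k : ℂ) * I‖ = b k := by
    rw [norm_mul, Complex.norm_I, mul_one, Complex.norm_real, Real.norm_of_nonneg hb.le]
  refine ⟨(b k : ℂ) * I, by rw [hn]; exact hk1, ?_⟩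
  rw [hn]
  have hcos : (3 : ℝ) ≤ ‖Complex.cos ((b k : ℂ) * I) + 2‖ := by
    rw [Complex.cos_mul_I, ← Complex.ofReal_cosh]
    have : ((Real.cosh (b k) : ℝ) : ℂ) + 2 = ((Real.cosh (b k) + 2 : ℝ) : ℂ) := by push_cast; ring
    rw [this, Complex.norm_real]
    have h3 := Real.one_le_cosh (b k)
    rw [Real.norm_of_nonneg (by linarith)]
    linarith
  have hl := h_lower k
  unfold f
  rw [norm_mul]
  have h4 : Real.exp (A * b k) ≤ Real.exp (k * Real.log 2 * b k) := by
    apply Real.exp_le_exp.2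
    exact mul_le_mul_of_nonneg_right hk2 hb.le
  have h5 := Real.exp_pos (A * b k)
  nlinarith [norm_nonneg (h ((b k : ℂ) * I))]

lemma cos_add_two_zero {z : ℂ} (hz : Complex.cos z + 2 = 0) : |z.im| < 2 := by
  have h1 : Complex.cos z = -2 := by linear_combination hz
  -- |cos z| ≥ sinh |im z|
  have h2 : ‖Complex.exp (z * I)‖ = Real.exp (-z.im) := by
    rw [Complex.norm_exp]; simp
  have h3 : ‖Complex.exp (-z * I)‖ = Real.exp (z.im) := by
    rw [Complex.norm_exp]; simp
  have h4 : Complex.exp (z * I) + Complex.exp (-z * I) = -4 := by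
    have : Complex.cos z = (Complex.exp (z * I) + Complex.exp (-z * I)) / 2 := rfl
    rw [h1] at this
    linear_combination -2 * this
  have h5 : Real.exp (z.im) ≤ 4 + Real.exp (-z.im) := by
    rw [← h3, ← h2]
    have : Complex.exp (-z * I) = -4 - Complex.exp (z * I) := by linear_combination h4
    rw [this]
    refine (norm_sub_le _ _).trans ?_
    norm_num
  have h6 : Real.exp (-z.im) ≤ 4 + Real.exp (z.im) := by
    rw [← h3, ← h2]
    have : Complex.exp (z * I) = -4 - Complex.exp (-z * I) := by linear_combination h4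
    rw [this]
    refine (norm_sub_le _ _).trans ?_
    norm_num
  have he2 : (5 : ℝ) < Real.exp 2 := by
    have h7 := Real.exp_one_gt_d9
    have h8 : Real.exp 2 = Real.exp 1 ^ 2 := by rw [← Real.exp_nat_mul]; norm_num
    rw [h8]; nlinarith
  rw [abs_lt]
  constructor
  · by_contra hcon
    push Not at hcon
    have h7 : Real.exp 2 ≤ Real.exp (-z.im) := Real.exp_le_exp.2 (by linarith)
    have h8 : Real.exp (z.im) ≤ 1 := Real.exp_le_one_iff.2 (by linarith)
    linarith
  · by_contra hcon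
    push Not at hcon
    have h7 : Real.exp 2 ≤ Real.exp (z.im) := Real.exp_le_exp.2 (by linarith)
    have h8 : Real.exp (-z.im) ≤ 1 := Real.exp_le_one_iff.2 (by linarith)
    linarith

lemma f_zeros : ∃ Δ : ℝ, 0 < Δ ∧ ∀ z : ℂ, f z = 0 → |z.im| < Δ := by
  refine ⟨2, by norm_num, fun z hz => ?_⟩
  unfold f at hz
  rcases mul_eq_zero.1 hz with h1 | h1
  · exact cos_add_two_zero h1
  · by_cases hq : ∀ j, q j z ≠ 0
    · exact absurd h1 (h_ne_zero hq)
    · push Not at hq
      obtain ⟨j, hj⟩ := hq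
      rw [q_eq_zero hj]; norm_num

/-- the local difference -/
def DD (k : ℕ) (u : ℂ) : ℂ := (Complex.cos u + 2) * ((h (XX k + u) - h (XX k)) / h (XX k))

/-- the limit function -/
def GG (w : ℂ) : ℂ := ((Real.exp (1 / 2) : ℝ) : ℂ) * Complex.cos w + 2

lemma cos_XX (k : ℕ) (u : ℂ) : Complex.cos (XX k + u) = Complex.cos u := by
  have : (XX k : ℂ) + u = u + ((cc k ^ 4 : ℕ) : ℂ) * (2 * Real.pi) := by
    unfold XX b; push_cast; ring
  rw [this, Complex.cos_add_nat_mul_two_pi]

lemma f_split (k : ℕ) (u : ℂ) : f (XX k + u) = h (XX k) * ((Complex.cos u + 2) + DD k u) := by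
  unfold f DD
  rw [cos_XX]
  have := h_XX_ne_zero k
  field_simp
  ring

lemma differentiable_DD (k : ℕ) : Differentiable ℂ (DD k) := by
  unfold DD
  apply (Complex.differentiable_cos.add_const 2).mul
  apply Differentiable.div_const
  apply Differentiable.sub_const
  exact differentiable_h.comp (differentiable_id.const_add _)

lemma DD_bound (k : ℕ) (u : ℂ) :
    ‖DD k u‖ ≤ 3 * Real.exp ‖u‖ * (Real.exp (eta k * (‖u‖ + ‖u‖ ^ 2)) - 1) := by
  unfold DD
  rw [norm_mul, norm_div]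
  have h1 := h_local k u
  have h2 : 0 < ‖h (XX k)‖ := norm_pos_iff.2 (h_XX_ne_zero k)
  have h3 : ‖h (XX k + u) - h (XX k)‖ / ‖h (XX k)‖ ≤ Real.exp (eta k * (‖u‖ + ‖u‖ ^ 2)) - 1 := by
    rw [div_le_iff₀ h2, mul_comm]; exact h1
  exact mul_le_mul (norm_cos_add_le u) h3 (by positivity) (by positivity)

lemma ht_cos (n : ℕ) (w : ℂ) : ht (fun u => Complex.cos u + 2) n w =
    ((1 / 2 : ℝ) : ℂ) ^ n / (n.factorial : ℂ) * Complex.cos w + if n = 0 then 2 else 0 := by
  unfold ht
  rcases Nat.eq_zero_or_pos n with rfl | hn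
  · simp
  · have h1 : iteratedDeriv (2 * n) (fun u => Complex.cos u + 2) w =
        iteratedDeriv (2 * n) Complex.cos w := by
      have : (fun u => Complex.cos u + 2) = fun u => 2 + Complex.cos u := by ext; ring
      rw [this, iteratedDeriv_const_add (by omega)]
    rw [h1, Complex.iteratedDeriv_even_cos, if_neg (by omega)]
    simp only [Pi.mul_apply, Pi.pow_apply, Pi.neg_apply, Pi.one_apply, add_zero]
    rw [neg_pow]
    have : ((-1 : ℂ)) ^ n * (-1) ^ n = 1 := by rw [← mul_pow]; norm_num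
    linear_combination (((1 / 2 : ℝ) : ℂ) ^ n / (n.factorial : ℂ) * Complex.cos w) * this

lemma hasSum_ht_cos (w : ℂ) : HasSum (fun n => ht (fun u => Complex.cos u + 2) n w) (GG w) := by
  simp_rw [ht_cos]
  unfold GG
  apply HasSum.add
  · apply HasSum.mul_right
    have := NormedSpace.expSeries_div_hasSum_exp (𝔸 := ℂ) (((1 / 2 : ℝ) : ℂ))
    rw [← Complex.exp_eq_exp_ℂ] at this
    rw [Complex.ofReal_exp]
    exact this
  · exact hasSum_ite_eq 0 2

lemma iter_shift (k n : ℕ) (w : ℂ) : iteratedDeriv n f (XX k + w) =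
    h (XX k) * iteratedDeriv n (fun u => (Complex.cos u + 2) + DD k u) w := by
  have h1 := congrFun (iteratedDeriv_comp_const_add n f (XX k : ℂ)) w
  rw [← h1]
  have h2 : (fun z => f (XX k + z)) = fun u => h (XX k) * ((Complex.cos u + 2) + DD k u) := by
    ext u; exact f_split k u
  rw [h2]
  rw [iteratedDeriv_const_mul_field]

lemma iter_add (k n : ℕ) (w : ℂ) : iteratedDeriv n (fun u => (Complex.cos u + 2) + DD k u) w =
    iteratedDeriv n (fun u => Complex.cos u + 2) w + iteratedDeriv n (DD k) w := by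
  have h1 : ContDiffAt ℂ n (fun u => Complex.cos u + 2) w :=
    ((Complex.differentiable_cos.add_const 2).contDiff).contDiffAt
  have h2 : ContDiffAt ℂ n (DD k) w := (differentiable_DD k).contDiff.contDiffAt
  exact iteratedDeriv_add h1 h2

lemma ht_f (k n : ℕ) (w : ℂ) : ht f n (XX k + w) =
    h (XX k) * (ht (fun u => Complex.cos u + 2) n w + ht (DD k) n w) := by
  unfold ht
  rw [iter_shift, iter_add]
  ring

/-- the total constant -/
def CK : ℝ := ∑' n, KK n

lemma KK_nonneg (n : ℕ) : 0 ≤ KK n := by unfold KK; positivity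

lemma ht_DD_bound {k : ℕ} (hk : eta k ≤ 1 / 28) (n : ℕ) {w : ℂ} (hw : ‖w‖ ≤ 5) :
    ‖ht (DD k) n w‖ ≤ eta k * KK n :=
  ht_bound (differentiable_DD k) (eta_nonneg k) hk (DD_bound k) n hw

/-- the error after the heat flow -/
def EE (k : ℕ) (w : ℂ) : ℂ := ∑' n, ht (DD k) n w

lemma summable_ht_DD {k : ℕ} (hk : eta k ≤ 1 / 28) {w : ℂ} (hw : ‖w‖ ≤ 5) :
    Summable (fun n => ht (DD k) n w) :=
  Summable.of_norm_bounded (summable_KK.mul_left (eta k)) (fun n => ht_DD_bound hk n hw)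

lemma EE_bound {k : ℕ} (hk : eta k ≤ 1 / 28) {w : ℂ} (hw : ‖w‖ ≤ 5) :
    ‖EE k w‖ ≤ eta k * CK := by
  have h1 := tsum_of_norm_bounded (summable_KK.mul_left (eta k)).hasSum
    (fun n => ht_DD_bound hk n hw)
  rw [tsum_mul_left] at h1
  exact h1

lemma differentiableOn_EE {k : ℕ} (hk : eta k ≤ 1 / 28) :
    DifferentiableOn ℂ (EE k) (Metric.ball 0 5) := by
  apply Complex.differentiableOn_tsum_of_summable_norm (summable_KK.mul_left (eta k))
  · intro n
    unfold ht
    apply DifferentiableOn.const_mul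
    have h1 : ContDiff ℂ ((2 * n + 1 : ℕ) : WithTop ℕ∞) (DD k) := (differentiable_DD k).contDiff
    exact (h1.differentiable_iteratedDeriv (2 * n) (by
      exact_mod_cast Nat.lt_succ_self _)).differentiableOn
  · exact Metric.isOpen_ball
  · intro n w hw
    exact ht_DD_bound hk n (by simpa using (Metric.mem_ball.1 hw).le)

lemma heat_f {k : ℕ} (hk : eta k ≤ 1 / 28) {w : ℂ} (hw : ‖w‖ ≤ 5) :
    ∑' n, ht f n (XX k + w) = h (XX k) * (GG w + EE k w) := by
  simp_rw [ht_f]
  rw [tsum_mul_left, (hasSum_ht_cos w).summable.tsum_add (summable_ht_DD hk hw),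
    (hasSum_ht_cos w).tsum_eq]
  rfl

/-- existence of zeros from a minimum modulus comparison -/
lemma exists_zero {F : ℂ → ℂ} {w0 : ℂ} {r c : ℝ} (hr : 0 < r)
    (hF : DiffContOnCl ℂ F (Metric.ball w0 r)) (hc : ∀ z ∈ Metric.sphere w0 r, c ≤ ‖F z‖)
    (h0 : ‖F w0‖ < c) : ∃ z ∈ Metric.closedBall w0 r, F z = 0 := by
  by_contra hcon
  push Not at hcon
  have hcl : closure (Metric.ball w0 r) = Metric.closedBall w0 r := closure_ball _ hr.ne'
  have h1 : DiffContOnCl ℂ (F⁻¹) (Metric.ball w0 r) := hF.inv (by rw [hcl]; exact hcon)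
  have hc0 : 0 < c := (norm_nonneg _).trans_lt h0
  have h2 := Complex.norm_le_of_forall_mem_frontier_norm_le Metric.isBounded_ball h1 (C := c⁻¹)
    (by
      intro z hz
      rw [frontier_ball _ hr.ne'] at hz
      rw [Pi.inv_apply, norm_inv]
      exact inv_anti₀ hc0 (hc z hz)) (z := w0) (by
      rw [hcl]; exact Metric.mem_closedBall_self hr.le)
  rw [Pi.inv_apply, norm_inv] at h2
  have h3 : 0 < ‖F w0‖ := norm_pos_iff.2 (hcon w0 (Metric.mem_closedBall_self hr.le))
  have h4 := (inv_le_inv₀ h3 hc0).1 h2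
  linarith

lemma GG_zero : ∃ y0 : ℝ, 0 < y0 ∧ y0 < 1 ∧ GG ((Real.pi : ℂ) + y0 * I) = 0 := by
  have h1 : Real.exp (1 / 2) < 2 := by
    have h1 : Real.exp (1 / 2) ^ 2 = Real.exp 1 := by rw [← Real.exp_nat_mul]; norm_num
    have h2 := Real.exp_one_lt_d9
    by_contra h3
    push Not at h3
    nlinarith [Real.exp_pos (1 / 2)]
  have h2 : 2 < Real.exp (1 / 2) * Real.cosh 1 := by
    have h3 : Real.cosh 1 = (Real.exp 1 + Real.exp (-1)) / 2 := Real.cosh_eq 1
    have h4 : (1.6 : ℝ) ≤ Real.exp (1 / 2) := by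
      have h1 : Real.exp (1 / 2) ^ 2 = Real.exp 1 := by rw [← Real.exp_nat_mul]; norm_num
      have h2 := Real.exp_one_gt_d9
      by_contra h3
      push Not at h3
      nlinarith [Real.exp_pos (1 / 2)]
    have h5 := Real.exp_one_gt_d9
    have h6 := Real.exp_pos (-1 : ℝ)
    nlinarith
  have h3 : ContinuousOn (fun y : ℝ => Real.exp (1 / 2) * Real.cosh y) (Set.Icc 0 1) := by
    fun_prop
  obtain ⟨y0, hy0, hy⟩ := intermediate_value_Ioo (by norm_num : (0 : ℝ) ≤ 1) h3
    (show (2 : ℝ) ∈ Set.Ioo _ _ from ⟨by simpa using h1, h2⟩)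
  refine ⟨y0, hy0.1, hy0.2, ?_⟩
  unfold GG
  have h4 : Complex.cos ((Real.pi : ℂ) + y0 * I) = -((Real.cosh y0 : ℝ) : ℂ) := by
    rw [add_comm, Complex.cos_add_pi, Complex.cos_mul_I, Complex.ofReal_cosh]
  rw [h4]
  have h5 : ((Real.exp (1 / 2) : ℝ) : ℂ) * ((Real.cosh y0 : ℝ) : ℂ) = 2 := by
    have hy' : Real.exp (1 / 2) * Real.cosh y0 = 2 := hy
    rw [← Complex.ofReal_mul, hy']; norm_num
  linear_combination -h5

lemma differentiable_GG : Differentiable ℂ GG := by
  unfold GG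
  exact (Complex.differentiable_cos.const_mul _).add_const 2

lemma GG_isolated (y0 : ℝ) (hy0 : 0 < y0) (h0 : GG ((Real.pi : ℂ) + y0 * I) = 0) :
    ∃ r : ℝ, 0 < r ∧ r < y0 ∧ r < 1 / 2 ∧
      ∀ z ∈ Metric.sphere ((Real.pi : ℂ) + y0 * I) r, GG z ≠ 0 := by
  set w0 : ℂ := (Real.pi : ℂ) + y0 * I with hw0
  have ha : AnalyticOnNhd ℂ GG Set.univ := differentiable_GG.differentiableOn.analyticOnNhd isOpen_univ
  rcases (ha w0 (Set.mem_univ _)).eventually_eq_zero_or_eventually_ne_zero with h1 | h1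
  · exfalso
    have h2 := ha.eqOn_zero_of_preconnected_of_eventuallyEq_zero isPreconnected_univ
      (Set.mem_univ _) h1
    have h3 : GG 0 = 0 := h2 (Set.mem_univ _)
    unfold GG at h3
    rw [Complex.cos_zero, mul_one] at h3
    have h4 := congrArg Complex.re h3
    simp only [Complex.add_re, Complex.ofReal_re, Complex.zero_re] at h4
    have := Real.exp_pos (1 / 2)
    norm_num at h4
    linarith
  · rw [eventually_nhdsWithin_iff, Metric.eventually_nhds_iff] at h1
    obtain ⟨δ, hδ, h2⟩ := h1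
    refine ⟨min (δ / 2) (min (y0 / 2) (1 / 4)), by positivity, ?_, ?_, ?_⟩
    · exact lt_of_le_of_lt ((min_le_right _ _).trans (min_le_left _ _)) (by linarith)
    · exact lt_of_le_of_lt ((min_le_right _ _).trans (min_le_right _ _)) (by norm_num)
    · intro z hz
      rw [Metric.mem_sphere] at hz
      have hpos : 0 < min (δ / 2) (min (y0 / 2) (1 / 4)) := by positivity
      apply h2
      · rw [hz]
        exact lt_of_le_of_lt (min_le_left _ _) (by linarith)
      · intro hzz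
        rw [Set.mem_singleton_iff] at hzz
        rw [hzz, dist_self] at hz
        linarith

theorem main : ∃ K : ℕ, ∀ k ≥ K, ∃ w : ℂ, ‖w‖ ≤ 5 ∧ 0 < w.im ∧ ∑' n, ht f n (XX k + w) = 0 := by
  obtain ⟨y0, hy0, hy1, h0⟩ := GG_zero
  obtain ⟨r, hr0, hry, hr1, hne⟩ := GG_isolated y0 hy0 h0
  set w0 : ℂ := (Real.pi : ℂ) + y0 * I with hw0
  have hcomp : IsCompact (Metric.sphere w0 r) := isCompact_sphere _ _
  have hnonempty : (Metric.sphere w0 r).Nonempty := NormedSpace.sphere_nonempty.2 hr0.le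
  obtain ⟨zm, hzm, hmin⟩ := hcomp.exists_isMinOn hnonempty
    (differentiable_GG.continuous.norm.continuousOn)
  set ε : ℝ := ‖GG zm‖ with hε
  have hε0 : 0 < ε := norm_pos_iff.2 (hne zm hzm)
  have hw0n : ‖w0‖ ≤ 9 / 2 := by
    rw [hw0]
    refine (norm_add_le _ _).trans ?_
    rw [norm_mul, Complex.norm_I, mul_one, Complex.norm_real, Complex.norm_real,
      Real.norm_of_nonneg Real.pi_pos.le, Real.norm_of_nonneg hy0.le]
    have := Real.pi_lt_d2
    linarith
  have hball : ∀ z ∈ Metric.closedBall w0 r, ‖z‖ < 5 := by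
    intro z hz
    have h1 : ‖z - w0‖ ≤ r := by simpa [dist_eq_norm] using hz
    calc ‖z‖ = ‖w0 + (z - w0)‖ := by ring_nf
      _ ≤ ‖w0‖ + ‖z - w0‖ := norm_add_le _ _
      _ < 5 := by linarith
  have h1 : ∀ᶠ k in atTop, eta k < 1 / 28 := tendsto_eta.eventually_lt_const (by norm_num)
  have h2 : ∀ᶠ k in atTop, eta k * CK < ε / 2 := by
    have : Tendsto (fun k => eta k * CK) atTop (𝓝 0) := by
      simpa using tendsto_eta.mul_const CK
    exact this.eventually_lt_const (by linarith)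
  obtain ⟨K, hK⟩ := eventually_atTop.1 (h1.and h2)
  refine ⟨K, fun k hk => ?_⟩
  obtain ⟨hk1, hk2⟩ := hK k hk
  have hD : DiffContOnCl ℂ (fun w => GG w + EE k w) (Metric.ball w0 r) := by
    apply DifferentiableOn.diffContOnCl
    rw [closure_ball _ hr0.ne']
    apply (differentiable_GG.differentiableOn).add
    apply (differentiableOn_EE hk1.le).mono
    intro z hz
    rw [Metric.mem_ball, dist_zero_right]
    exact hball z hz
  obtain ⟨z, hz, hz0⟩ := exists_zero (c := ε / 2) hr0 hD (by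
      intro z hz
      have h3 : ‖EE k z‖ ≤ eta k * CK :=
        EE_bound hk1.le (hball z (Metric.sphere_subset_closedBall hz)).le
      have h4 : ε ≤ ‖GG z‖ := hmin hz
      have h5 : ‖GG z‖ ≤ ‖GG z + EE k z‖ + ‖EE k z‖ := by
        calc ‖GG z‖ = ‖(GG z + EE k z) - EE k z‖ := by ring_nf
          _ ≤ _ := norm_sub_le _ _
      linarith) (by
      have h3 : ‖EE k w0‖ ≤ eta k * CK := EE_bound hk1.le (by linarith)
      simp only [h0, zero_add]
      linarith)
  refine ⟨z, (hball z hz).le, ?_, ?_⟩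
  · have h3 : ‖z - w0‖ ≤ r := by simpa [dist_eq_norm] using hz
    have h4 : |(z - w0).im| ≤ ‖z - w0‖ := Complex.abs_im_le_norm _
    have h5 : (z - w0).im = z.im - y0 := by simp [hw0]
    rw [h5] at h4
    have := (abs_le.1 (h4.trans h3)).1
    linarith
  · rw [heat_f hk1.le (hball z hz).le]
    have : GG z + EE k z = 0 := hz0
    rw [this, mul_zero]

end

end Pool.Agent.H788R2.Heat
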