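import Mathlib

set_option autoImplicit false
open MeasureTheory Filter Topology Complex

namespace Pool.Agent.H788R2.Toep

noncomputable section

/-- the circle of length one -/
abbrev Cir := AddCircle (1 : ℝ)

/-- the coordinate function on the circle -/
def e (θ : Cir) : ℂ := fourier 1 θ

lemma norm_e (θ : Cir) : ‖e θ‖ = 1 := by
  unfold e
  rw [fourier_one]
  exact Circle.norm_coe _

lemma fourier_nat (k : ℕ) (θ : Cir) : fourier (k : ℤ) θ = (e θ) ^ k := by
  induction k with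
  | zero => simp
  | succ k ih =>
    push_cast
    rw [fourier_add, ih, pow_succ]
    rfl

lemma continuous_e : Continuous e := (fourier 1 : C(Cir, ℂ)).continuous

lemma e_ne_one {θ : Cir} (h : θ ≠ 0) : e θ ≠ 1 := by
  intro h1
  apply h
  unfold e at h1
  rw [fourier_one] at h1
  have h2 : AddCircle.toCircle θ = 1 := by
    ext
    simpa using h1
  have h3 := AddCircle.injective_toCircle (T := (1:ℝ)) one_ne_zero
  apply h3
  rw [h2]; simp

/-- the singular inner function `exp (-(1 + z) / (1 - z))` -/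
def g (z : ℂ) : ℂ := Complex.exp (-((1 + z) / (1 - z)))

lemma re_div (z : ℂ) : ((1 + z) / (1 - z)).re = (1 - ‖z‖ ^ 2) / ‖1 - z‖ ^ 2 := by
  rw [Complex.div_re, Complex.sq_norm, Complex.sq_norm, ← add_div]
  congr 1
  simp [Complex.normSq_apply]
  ring

lemma norm_g (z : ℂ) : ‖g z‖ = Real.exp (-((1 - ‖z‖ ^ 2) / ‖1 - z‖ ^ 2)) := by
  rw [g, Complex.norm_exp, neg_re, re_div]

lemma norm_g_le {z : ℂ} (hz : ‖z‖ ≤ 1) : ‖g z‖ ≤ 1 := by
  rw [norm_g, Real.exp_le_one_iff]
  have : 0 ≤ (1 - ‖z‖ ^ 2) / ‖1 - z‖ ^ 2 := by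
    apply div_nonneg _ (by positivity)
    nlinarith [norm_nonneg z]
  linarith

lemma norm_g_one {z : ℂ} (hz : ‖z‖ = 1) : ‖g z‖ = 1 := by
  rw [norm_g, hz]; simp

lemma differentiableAt_g {z : ℂ} (hz : z ≠ 1) : DifferentiableAt ℂ g z := by
  unfold g
  have : 1 - z ≠ 0 := sub_ne_zero.2 (Ne.symm hz)
  fun_prop (disch := assumption)

/-- Taylor coefficients of `g` -/
def c (n : ℕ) : ℂ := ((n.factorial : ℂ))⁻¹ * iteratedDeriv n g 0

lemma ne_one_of_norm {z : ℂ} (hz : ‖z‖ < 1) : z ≠ 1 := by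
  rintro rfl; simp at hz

lemma hasSum_c {z : ℂ} (hz : ‖z‖ < 1) : HasSum (fun n => c n * z ^ n) (g z) := by
  have h1 : DifferentiableOn ℂ g (Metric.ball 0 1) := fun w hw =>
    (differentiableAt_g (ne_one_of_norm (by simpa using hw))).differentiableWithinAt
  have h2 := Complex.hasSum_taylorSeries_on_ball h1 (z := z) (by simpa using hz)
  refine h2.congr_fun ?_
  intro n
  simp only [c, sub_zero, smul_eq_mul]
  ring

/-- partial sums -/
def s (n : ℕ) : ℂ := ∑ k ∈ Finset.range (n + 1), c k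

lemma summable_c {r : ℝ} (h0 : 0 ≤ r) (h1 : r < 1) : Summable (fun n => ‖c n‖ * r ^ n) := by
  have := (hasSum_c (z := (r:ℂ)) (by simpa [abs_of_nonneg h0] using h1)).summable.norm
  refine this.congr fun n => ?_
  simp [abs_of_nonneg h0]

lemma norm_sum_s (z : ℂ) (n : ℕ) : ∑ k ∈ Finset.range (n + 1), c k * z ^ k * z ^ (n - k) =
    s n * z ^ n := by
  rw [s, Finset.sum_mul]
  refine Finset.sum_congr rfl fun k hk => ?_
  have : k ≤ n := by simpa [Nat.lt_succ_iff] using hk
  rw [mul_assoc, ← pow_add]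
  congr 2
  omega

lemma hasSum_s {z : ℂ} (hz : ‖z‖ < 1) : HasSum (fun n => s n * z ^ n) (g z / (1 - z)) := by
  have h1 : Summable (fun n => ‖c n * z ^ n‖) := by
    refine (summable_c (norm_nonneg z) hz).congr fun n => ?_
    simp
  have h2 : Summable (fun n : ℕ => ‖z ^ n‖) := by
    simpa using summable_geometric_of_lt_one (norm_nonneg z) hz
  have h3 := tsum_mul_tsum_eq_tsum_sum_range_of_summable_norm h1 h2
  have h4 := summable_sum_mul_range_of_summable_norm' h1 h1.of_norm h2 h2.of_norm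
  rw [(hasSum_c hz).tsum_eq, tsum_geometric_of_norm_lt_one hz] at h3
  rw [div_eq_mul_inv, h3]
  have h5 := h4.hasSum
  simp_rw [norm_sum_s z] at h5 ⊢
  exact h5

lemma summable_s {r : ℝ} (h0 : 0 ≤ r) (h1 : r < 1) : Summable (fun n => ‖s n‖ * r ^ n) := by
  have := (hasSum_s (z := (r:ℂ)) (by simpa [abs_of_nonneg h0] using h1)).summable.norm
  refine this.congr fun n => ?_
  simp [abs_of_nonneg h0]

lemma fourierCoeff_fourier (n : ℤ) (k : ℤ) :
    fourierCoeff (fourier k : C(Cir, ℂ)) n = if n = k then 1 else 0 := by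
  rw [← fourierCoeff_toLp, ← fourierBasis_repr, HilbertBasis.repr_apply_apply, coe_fourierBasis]
  have := orthonormal_iff_ite.1 (orthonormal_fourier (T := 1)) n k
  exact this

/-- the `n`-th Fourier coefficient as a continuous functional on continuous functions -/
def coefL (n : ℤ) : C(Cir, ℂ) →L[ℂ] ℂ :=
  (innerSL ℂ (fourierBasis (T := 1) n)).comp
    (ContinuousMap.toLp (E := ℂ) 2 AddCircle.haarAddCircle ℂ)

lemma coefL_apply (n : ℤ) (f : C(Cir, ℂ)) : coefL n f = fourierCoeff f n := by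
  rw [← fourierCoeff_toLp, ← fourierBasis_repr, HilbertBasis.repr_apply_apply]
  rfl

lemma fourierCoeff_of_hasSum {b : ℕ → ℂ} (hb : Summable fun n => ‖b n‖) {F : C(Cir, ℂ)}
    (hF : ∀ θ, HasSum (fun k => b k * (e θ) ^ k) (F θ)) (n : ℤ) :
    fourierCoeff F n = if 0 ≤ n then b n.toNat else 0 := by
  have h1 : Summable (fun k : ℕ => b k • (fourier (k : ℤ) : C(Cir, ℂ))) := by
    apply Summable.of_norm
    refine hb.congr fun k => ?_
    rw [norm_smul, fourier_norm, mul_one]
  have h2 : HasSum (fun k : ℕ => b k • (fourier (k : ℤ) : C(Cir, ℂ))) F := by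
    have h3 := h1.hasSum
    convert h3 using 1
    ext θ
    have h4 := ContinuousMap.hasSum_apply h3 θ
    refine (hF θ).unique ?_
    refine h4.congr_fun fun k => ?_
    show b k * e θ ^ k = b k * fourier (k : ℤ) θ
    rw [fourier_nat]
  have h5 := (coefL n).hasSum h2
  rw [← coefL_apply]
  refine h5.unique ?_
  have h6 : ∀ k : ℕ, coefL n (b k • (fourier (k : ℤ) : C(Cir, ℂ))) =
      if n = (k : ℤ) then b k else 0 := by
    intro k
    rw [map_smul, coefL_apply, fourierCoeff_fourier]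
    split_ifs <;> simp
  simp_rw [h6]
  split_ifs with h
  · obtain ⟨m, rfl⟩ := Int.eq_ofNat_of_zero_le h
    have := hasSum_single (f := fun k : ℕ => if ((m : ℤ)) = (k : ℤ) then b k else 0) m (by
      intro k hk
      have : ¬ ((m : ℤ) = (k : ℤ)) := by
        intro h; exact hk (by exact_mod_cast h.symm)
      simp [this])
    simpa using this
  · have : (fun k : ℕ => if n = (k : ℤ) then b k else 0) = fun _ => 0 := by
      ext k
      rw [if_neg]
      rintro rfl
      exact h (by positivity)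
    rw [this]
    exact hasSum_zero

/-- `g` on the circle of radius `r` -/
def gr (r : ℝ) (θ : Cir) : ℂ := g (r * e θ)

lemma norm_re (r : ℝ) (h0 : 0 ≤ r) (θ : Cir) : ‖(r : ℂ) * e θ‖ = r := by
  rw [norm_mul, norm_e, mul_one]; simp [abs_of_nonneg h0]

lemma continuous_gr {r : ℝ} (h0 : 0 ≤ r) (h1 : r < 1) : Continuous (gr r) := by
  rw [continuous_iff_continuousAt]
  intro θ
  have h2 : ContinuousAt g (r * e θ) :=
    (differentiableAt_g (ne_one_of_norm (by rw [norm_re r h0]; exact h1))).continuousAt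
  have h3 : ContinuousAt (fun θ : Cir => (r : ℂ) * e θ) θ :=
    (continuous_const.mul continuous_e).continuousAt
  exact ContinuousAt.comp (f := fun θ : Cir => (r : ℂ) * e θ) h2 h3

lemma coeff_gr {r : ℝ} (h0 : 0 ≤ r) (h1 : r < 1) (n : ℤ) :
    fourierCoeff (gr r) n = if 0 ≤ n then c n.toNat * r ^ n.toNat else 0 := by
  have := fourierCoeff_of_hasSum (b := fun k => c k * (r:ℂ) ^ k) (F := ⟨gr r, continuous_gr h0 h1⟩)
    (by
      refine (summable_c h0 h1).congr fun n => ?_
      simp [abs_of_nonneg h0]) (by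
      intro θ
      have := hasSum_c (z := (r : ℂ) * e θ) (by rw [norm_re r h0]; exact h1)
      refine this.congr_fun fun k => ?_
      rw [mul_pow]; ring) n
  exact this

/-- `g z / (1 - z)` on the circle of radius `r` -/
def hr (r : ℝ) (θ : Cir) : ℂ := g (r * e θ) / (1 - r * e θ)

lemma continuous_hr {r : ℝ} (h0 : 0 ≤ r) (h1 : r < 1) : Continuous (hr r) := by
  refine (continuous_gr h0 h1).div (continuous_const.sub (continuous_const.mul continuous_e)) ?_
  intro θ
  have := ne_one_of_norm (z := (r : ℂ) * e θ) (by rw [norm_re r h0]; exact h1)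
  exact sub_ne_zero.2 (Ne.symm this)

lemma coeff_hr {r : ℝ} (h0 : 0 ≤ r) (h1 : r < 1) (n : ℤ) :
    fourierCoeff (hr r) n = if 0 ≤ n then s n.toNat * r ^ n.toNat else 0 := by
  have := fourierCoeff_of_hasSum (b := fun k => s k * (r:ℂ) ^ k) (F := ⟨hr r, continuous_hr h0 h1⟩)
    (by
      refine (summable_s h0 h1).congr fun n => ?_
      simp [abs_of_nonneg h0]) (by
      intro θ
      have := hasSum_s (z := (r : ℂ) * e θ) (by rw [norm_re r h0]; exact h1)
      refine this.congr_fun fun k => ?_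
      rw [mul_pow]; ring) n
  exact this

/-- the boundary function -/
def aF (θ : Cir) : ℂ := g (e θ)

lemma norm_aF (θ : Cir) : ‖aF θ‖ = 1 := norm_g_one (norm_e θ)

lemma haar_eq : (AddCircle.haarAddCircle : Measure Cir) = volume := by
  rw [AddCircle.volume_eq_smul_haarAddCircle]; simp

lemma ae_ne_zero : ∀ᵐ θ : Cir ∂AddCircle.haarAddCircle, θ ≠ 0 := by
  rw [haar_eq]
  have h1 : volume ({0} : Set Cir) = 0 := by
    have := AddCircle.volume_closedBall (T := 1) (x := (0 : Cir)) 0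
    rw [Metric.closedBall_zero] at this
    rw [this]
    simp
  exact compl_mem_ae_iff.2 h1

lemma tendsto_gr {θ : Cir} (h : θ ≠ 0) : Tendsto (fun r : ℝ => gr r θ) (𝓝[<] 1) (𝓝 (aF θ)) := by
  have h2 : ContinuousAt g ((1 : ℝ) * e θ) := by
    rw [ofReal_one, one_mul]
    exact (differentiableAt_g (e_ne_one h)).continuousAt
  have h3 : ContinuousAt (fun r : ℝ => (r : ℂ) * e θ) 1 := by fun_prop
  have h4 := ContinuousAt.comp (f := fun r : ℝ => (r : ℂ) * e θ) h2 h3
  have h5 : Tendsto (fun r : ℝ => gr r θ) (𝓝 1) (𝓝 (g ((1:ℝ) * e θ))) := h4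
  rw [ofReal_one, one_mul] at h5
  exact h5.mono_left nhdsWithin_le_nhds

lemma ev_r : ∀ᶠ r : ℝ in 𝓝[<] 1, 0 ≤ r ∧ r < 1 := by
  have h1 : ∀ᶠ r : ℝ in 𝓝[<] 1, 0 < r := 
    mem_nhdsWithin_of_mem_nhds (Ioi_mem_nhds one_pos)
  filter_upwards [h1, self_mem_nhdsWithin] with r h h'
  exact ⟨h.le, h'⟩

lemma measurable_g : Measurable g := by
  unfold g
  fun_prop

lemma measurable_aF : Measurable aF := measurable_g.comp continuous_e.measurable

lemma coeff_aF (n : ℤ) : fourierCoeff aF n = if 0 ≤ n then c n.toNat else 0 := by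
  have h1 : Tendsto (fun r : ℝ => fourierCoeff (gr r) n) (𝓝[<] 1) (𝓝 (fourierCoeff aF n)) := by
    unfold fourierCoeff
    refine tendsto_integral_filter_of_dominated_convergence (fun _ => 1) ?_ ?_
      (integrable_const _) ?_
    · filter_upwards [ev_r] with r hr
      exact ((fourier (-n)).continuous.smul (continuous_gr hr.1 hr.2)).aestronglyMeasurable
    · filter_upwards [ev_r] with r hr
      refine Eventually.of_forall fun θ => ?_
      rw [norm_smul]
      have h1 : ‖fourier (-n) θ‖ = 1 := by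
        rw [fourier_apply]; exact Circle.norm_coe _
      rw [h1, one_mul]
      exact norm_g_le (by rw [norm_re r hr.1]; exact hr.2.le)
    · filter_upwards [ae_ne_zero] with θ hθ
      exact (tendsto_gr hθ).const_smul _
  have h2 : Tendsto (fun r : ℝ => fourierCoeff (gr r) n) (𝓝[<] 1)
      (𝓝 (if 0 ≤ n then c n.toNat else 0)) := by
    have h3 : Tendsto (fun r : ℝ => if 0 ≤ n then c n.toNat * (r : ℂ) ^ n.toNat else 0) (𝓝[<] 1)
      (𝓝 (if 0 ≤ n then c n.toNat else 0)) := by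
      split_ifs
      · have : Tendsto (fun r : ℝ => c n.toNat * (r : ℂ) ^ n.toNat) (𝓝 1)
            (𝓝 (c n.toNat * ((1 : ℝ) : ℂ) ^ n.toNat)) := by
          apply Continuous.tendsto
          fun_prop
        simp only [ofReal_one, one_pow, mul_one] at this
        exact this.mono_left nhdsWithin_le_nhds
      · exact tendsto_const_nhds
    refine h3.congr' ?_
    filter_upwards [ev_r] with r hr
    rw [coeff_gr hr.1 hr.2]
  exact tendsto_nhds_unique h1 h2

/-- the Poisson kernel at `r` -/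
def PK (r : ℝ) (θ : Cir) : ℝ := (1 - r ^ 2) / ‖1 - (r : ℂ) * e θ‖ ^ 2

lemma PK_nonneg {r : ℝ} (h0 : 0 ≤ r) (h1 : r < 1) (θ : Cir) : 0 ≤ PK r θ := by
  unfold PK
  apply div_nonneg _ (by positivity)
  nlinarith

lemma continuous_PK {r : ℝ} (h0 : 0 ≤ r) (h1 : r < 1) : Continuous (PK r) := by
  unfold PK
  refine continuous_const.div ?_ ?_
  · exact ((continuous_const.sub (continuous_const.mul continuous_e)).norm.pow 2)
  · intro θ
    have := ne_one_of_norm (z := (r : ℂ) * e θ) (by rw [norm_re r h0]; exact h1)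
    have := sub_ne_zero.2 (Ne.symm this)
    positivity

lemma xexp_le (x : ℝ) (hx : 0 ≤ x) : x * Real.exp (-(2 * x)) ≤ 1 := by
  have h1 : x ≤ Real.exp (2 * x) := by
    have := Real.add_one_le_exp (2 * x)
    linarith
  calc x * Real.exp (-(2 * x)) ≤ Real.exp (2 * x) * Real.exp (-(2 * x)) :=
        mul_le_mul_of_nonneg_right h1 (Real.exp_pos _).le
    _ = 1 := by rw [← Real.exp_add]; simp

/-- the integral `∫ P e^{-2P}` -/
def II (r : ℝ) : ℝ := ∫ θ : Cir, PK r θ * Real.exp (-(2 * PK r θ)) ∂AddCircle.haarAddCircle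

lemma tendsto_PK {θ : Cir} (h : θ ≠ 0) : Tendsto (fun r : ℝ => PK r θ) (𝓝[<] 1) (𝓝 0) := by
  have h1 : (1 : ℂ) - e θ ≠ 0 := sub_ne_zero.2 (Ne.symm (e_ne_one h))
  have h2 : ContinuousAt (fun r : ℝ => PK r θ) 1 := by
    unfold PK
    apply ContinuousAt.div (by fun_prop) (by fun_prop)
    simpa using h1
  have h3 : PK 1 θ = 0 := by simp [PK]
  have h4 : Tendsto (fun r : ℝ => PK r θ) (𝓝 1) (𝓝 (PK 1 θ)) := h2
  rw [h3] at h4
  exact h4.mono_left nhdsWithin_le_nhds

lemma tendsto_II : Tendsto II (𝓝[<] 1) (𝓝 0) := by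
  have : (0 : ℝ) = ∫ θ : Cir, (0 : ℝ) ∂AddCircle.haarAddCircle := by simp
  rw [this]
  unfold II
  refine tendsto_integral_filter_of_dominated_convergence (fun _ => 1) ?_ ?_
      (integrable_const _) ?_
  · filter_upwards [ev_r] with r hr
    have := continuous_PK hr.1 hr.2
    apply Continuous.aestronglyMeasurable
    fun_prop
  · filter_upwards [ev_r] with r hr
    refine Eventually.of_forall fun θ => ?_
    have h1 := PK_nonneg hr.1 hr.2 θ
    rw [Real.norm_of_nonneg (by positivity)]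
    exact xexp_le _ h1
  · filter_upwards [ae_ne_zero] with θ hθ
    have h1 := tendsto_PK hθ
    have h2 : Continuous (fun x : ℝ => x * Real.exp (-(2 * x))) := by fun_prop
    have h3 := (h2.tendsto 0).comp h1
    rw [zero_mul] at h3
    exact h3

lemma norm_hr_sq {r : ℝ} (h0 : 0 ≤ r) (h1 : r < 1) (θ : Cir) :
    ‖hr r θ‖ ^ 2 * (1 - r ^ 2) = PK r θ * Real.exp (-(2 * PK r θ)) := by
  have h2 : ‖g (r * e θ)‖ = Real.exp (-(PK r θ)) := by
    rw [norm_g, norm_re r h0]; rfl
  unfold hr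
  rw [norm_div, h2, div_pow, ← Real.exp_nat_mul]
  have : ((2 : ℕ) : ℝ) * -PK r θ = -(2 * PK r θ) := by push_cast; ring
  rw [this]
  unfold PK
  ring

lemma sum_s_le {r : ℝ} (h0 : 0 ≤ r) (h1 : r < 1) (n : ℕ) :
    (∑ k ∈ Finset.range (n + 1), ‖s k * (r : ℂ) ^ k‖ ^ 2) * (1 - r ^ 2) ≤ II r := by
  have hpos : 0 < 1 - r ^ 2 := by nlinarith
  set F : C(Cir, ℂ) := ⟨hr r, continuous_hr h0 h1⟩ with hF
  have h2 := tsum_sq_fourierCoeff (ContinuousMap.toLp (E := ℂ) 2 AddCircle.haarAddCircle ℂ F)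
  simp_rw [fourierCoeff_toLp] at h2
  have h3 : ∫ θ : Cir, ‖(ContinuousMap.toLp (E := ℂ) 2 AddCircle.haarAddCircle ℂ F) θ‖ ^ 2
      ∂AddCircle.haarAddCircle = ∫ θ : Cir, ‖hr r θ‖ ^ 2 ∂AddCircle.haarAddCircle := by
    apply integral_congr_ae
    filter_upwards [ContinuousMap.coeFn_toLp (p := 2) (𝕜 := ℂ) AddCircle.haarAddCircle F] with θ hθ
    rw [hθ]
    rfl
  have h4 : Summable (fun i : ℤ => ‖fourierCoeff (⇑F) i‖ ^ 2) := by
    have h5 := lp.memℓp (fourierBasis.repr
      (ContinuousMap.toLp (E := ℂ) 2 AddCircle.haarAddCircle ℂ F))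
    have h6 := h5.summable (by norm_num)
    refine h6.congr fun i => ?_
    rw [fourierBasis_repr, fourierCoeff_toLp]
    simp
  have h5 : ∑ k ∈ Finset.range (n + 1), ‖s k * (r : ℂ) ^ k‖ ^ 2 ≤
      ∑' i : ℤ, ‖fourierCoeff (⇑F) i‖ ^ 2 := by
    have h6 := h4.sum_le_tsum ((Finset.range (n + 1)).map Nat.castEmbedding)
      (fun i _ => by positivity)
    rw [Finset.sum_map] at h6
    refine le_trans (le_of_eq ?_) h6
    refine Finset.sum_congr rfl fun k _ => ?_
    have h7 : fourierCoeff (⇑F) ((k : ℤ)) = s k * (r : ℂ) ^ k := by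
      have := coeff_hr h0 h1 (k : ℤ)
      rw [if_pos (by positivity)] at this
      exact this
    show _ = ‖fourierCoeff (⇑F) ((k : ℤ))‖ ^ 2
    rw [h7]
  rw [h2, h3] at h5
  calc (∑ k ∈ Finset.range (n + 1), ‖s k * (r : ℂ) ^ k‖ ^ 2) * (1 - r ^ 2)
      ≤ (∫ θ : Cir, ‖hr r θ‖ ^ 2 ∂AddCircle.haarAddCircle) * (1 - r ^ 2) :=
        mul_le_mul_of_nonneg_right h5 hpos.le
    _ = ∫ θ : Cir, ‖hr r θ‖ ^ 2 * (1 - r ^ 2) ∂AddCircle.haarAddCircle := by
        rw [integral_mul_const]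
    _ = II r := by
        unfold II
        congr 1
        ext θ
        exact norm_hr_sq h0 h1 θ

/-- the key smallness: the mean square of the partial sums tends to zero -/
lemma tendsto_mean : Tendsto (fun n : ℕ => (∑ k ∈ Finset.range (n + 1), ‖s k‖ ^ 2) / (n + 1))
    atTop (𝓝 0) := by
  set R : ℕ → ℝ := fun n => 1 - 1 / (4 * ((n : ℝ) + 1)) with hR
  have hR1 : ∀ n, R n < 1 := fun n => by simp only [hR]; linarith [show (0:ℝ) < 1 / (4 * ((n : ℝ) + 1)) by positivity]
  have hR34 : ∀ n, 3 / 4 ≤ R n := fun n => by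
    simp only [hR]
    have : 1 / (4 * ((n : ℝ) + 1)) ≤ 1 / 4 := by
      apply one_div_le_one_div_of_le (by norm_num)
      have : (0:ℝ) ≤ n := by positivity
      linarith
    linarith
  have hRt : Tendsto R atTop (𝓝[<] 1) := by
    rw [tendsto_nhdsWithin_iff]
    refine ⟨?_, Eventually.of_forall hR1⟩
    have h1 : Tendsto (fun n : ℕ => 1 / ((n : ℝ) + 1)) atTop (𝓝 0) :=
      tendsto_one_div_add_atTop_nhds_zero_nat
    have h2 : Tendsto (fun n : ℕ => 1 - (1 / 4) * (1 / ((n : ℝ) + 1))) atTop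
        (𝓝 (1 - (1 / 4) * 0)) := tendsto_const_nhds.sub (h1.const_mul _)
    rw [mul_zero, sub_zero] at h2
    refine h2.congr fun n => ?_
    simp only [hR]
    field_simp
  have h1 : Tendsto (fun n => 8 * II (R n)) atTop (𝓝 0) := by
    have := (tendsto_II.comp hRt).const_mul 8
    simpa using this
  refine squeeze_zero (fun n => by positivity) (fun n => ?_) h1
  have h2 := sum_s_le (r := R n) (by linarith [hR34 n]) (hR1 n) n
  have h3 : ∀ k ∈ Finset.range (n + 1), ‖s k‖ ^ 2 * (1 / 2) ≤ ‖s k * (R n : ℂ) ^ k‖ ^ 2 := by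
    intro k hk
    rw [norm_mul, mul_pow]
    apply mul_le_mul_of_nonneg_left _ (by positivity)
    rw [norm_pow, Complex.norm_real, Real.norm_of_nonneg (by linarith [hR34 n]), ← pow_mul]
    have h4 := one_add_mul_le_pow (a := -(1 / (4 * ((n : ℝ) + 1)))) (by
      have : 1 / (4 * ((n : ℝ) + 1)) ≤ 1 / 4 := by
        apply one_div_le_one_div_of_le (by norm_num)
        have : (0:ℝ) ≤ n := by positivity
        linarith
      linarith) (k * 2)
    refine le_trans ?_ (le_trans h4 (le_of_eq ?_))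
    · have hk' : (k : ℝ) ≤ n := by
        have : k ≤ n := by simpa [Nat.lt_succ_iff] using hk
        exact_mod_cast this
      have h5 : ((k * 2 : ℕ) : ℝ) * (1 / (4 * ((n : ℝ) + 1))) ≤ 1 / 2 := by
        push_cast
        rw [mul_one_div, div_le_iff₀ (by positivity)]
        linarith
      linarith
    · simp only [hR]; ring
  have h4 := Finset.sum_le_sum h3
  rw [← Finset.sum_mul] at h4
  have h5 : 1 / (4 * ((n : ℝ) + 1)) ≤ 1 - R n ^ 2 := by
    have h6 : 1 - R n = 1 / (4 * ((n : ℝ) + 1)) := by simp only [hR]; ring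
    rw [← h6]
    nlinarith [hR1 n, hR34 n]
  have h7 : 0 ≤ ∑ k ∈ Finset.range (n + 1), ‖s k‖ ^ 2 := Finset.sum_nonneg fun _ _ => by positivity
  have h8 : (∑ k ∈ Finset.range (n + 1), ‖s k‖ ^ 2) * (1 / 2) * (1 / (4 * ((n : ℝ) + 1))) ≤
      II (R n) := by
    refine le_trans ?_ h2
    apply mul_le_mul h4 h5 (by positivity)
    apply Finset.sum_nonneg fun _ _ => by positivity
  calc (∑ k ∈ Finset.range (n + 1), ‖s k‖ ^ 2) / ((n : ℝ) + 1)
      = 8 * ((∑ k ∈ Finset.range (n + 1), ‖s k‖ ^ 2) * (1 / 2) * (1 / (4 * ((n : ℝ) + 1)))) := by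
        field_simp; ring
    _ ≤ 8 * II (R n) := by linarith

end

end Pool.Agent.H788R2.Toep
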