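import Mathlib
import Pool.Agent.H788R2.Toep1

set_option autoImplicit false
open MeasureTheory Filter Topology Complex
open scoped ComplexConjugate InnerProductSpace

namespace Pool.Agent.H788R2.Toep

noncomputable section

abbrev E := lp (fun _ : ℕ => ℂ) 2

/-- the functions `ζ^k a` on the circle -/
def fk (k : ℤ) (θ : Cir) : ℂ := fourier k θ * aF θ

lemma norm_fourier_apply (k : ℤ) (θ : Cir) : ‖fourier k θ‖ = 1 := by
  rw [fourier_apply]; exact Circle.norm_coe _

lemma memLp_fk (k : ℤ) : MemLp (fk k) 2 (AddCircle.haarAddCircle : Measure Cir) := by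
  refine MemLp.of_bound ?_ 1 (Eventually.of_forall fun θ => ?_)
  · exact ((fourier k).continuous.measurable.mul measurable_aF).aestronglyMeasurable
  · rw [fk, norm_mul, norm_fourier_apply, norm_aF, one_mul]

def uF (k : ℤ) : Lp ℂ 2 (AddCircle.haarAddCircle : Measure Cir) := (memLp_fk k).toLp _

lemma coeff_uF (k j : ℤ) : fourierBasis.repr (uF k) j = if k ≤ j then c (j - k).toNat else 0 := by
  rw [fourierBasis_repr]
  have h1 : fourierCoeff (uF k : Cir → ℂ) j = fourierCoeff aF (j - k) := by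
    unfold fourierCoeff
    apply integral_congr_ae
    filter_upwards [(memLp_fk k).coeFn_toLp] with θ hθ
    have h2 : (uF k : Cir → ℂ) θ = fk k θ := hθ
    rw [h2, fk, smul_eq_mul, smul_eq_mul, ← mul_assoc, ← fourier_add]
    congr 3
    ring
  rw [h1, coeff_aF]
  simp only [sub_nonneg]

lemma inner_uF (k l : ℤ) : ⟪uF k, uF l⟫_ℂ = if k = l then 1 else 0 := by
  rw [L2.inner_def, ← fourierCoeff_fourier k l]
  unfold fourierCoeff
  apply integral_congr_ae
  filter_upwards [(memLp_fk k).coeFn_toLp, (memLp_fk l).coeFn_toLp] with θ hk hl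
  have h2 : (uF k : Cir → ℂ) θ = fk k θ := hk
  have h3 : (uF l : Cir → ℂ) θ = fk l θ := hl
  rw [h2, h3, fk, fk, RCLike.inner_apply, smul_eq_mul, map_mul, fourier_neg]
  have h4 : aF θ * conj (aF θ) = 1 := by
    rw [Complex.mul_conj, Complex.normSq_eq_norm_sq, norm_aF]; simp
  linear_combination (fourier l θ * conj (fourier k θ)) * h4

/-- the columns of the Toeplitz matrix -/
def vfun (k j : ℕ) : ℂ := if k ≤ j then c (j - k) else 0

lemma vfun_eq (k j : ℕ) : vfun k j = fourierBasis.repr (uF k) (j : ℤ) := by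
  rw [coeff_uF]
  unfold vfun
  by_cases h : k ≤ j
  · rw [if_pos h, if_pos (by exact_mod_cast h)]
    congr 1
    omega
  · rw [if_neg h, if_neg (by exact_mod_cast h)]

lemma memℓp_vfun (k : ℕ) : Memℓp (vfun k) 2 := by
  apply memℓp_gen
  have h1 := (lp.memℓp (fourierBasis.repr (uF k))).summable (by norm_num)
  have h2 := h1.comp_injective (i := fun n : ℕ => (n : ℤ)) Nat.cast_injective
  refine h2.congr fun n => ?_
  simp [vfun_eq]

def v (k : ℕ) : E := ⟨vfun k, memℓp_vfun k⟩

lemma inner_v (k l : ℕ) : ⟪v k, v l⟫_ℂ = if k = l then 1 else 0 := by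
  have h1 := fourierBasis.hasSum_inner_mul_inner (uF k) (uF l)
  have h2 := (Function.Injective.hasSum_iff (g := fun n : ℕ => (n : ℤ)) Nat.cast_injective
    (f := fun i : ℤ => ⟪uF k, fourierBasis i⟫_ℂ * ⟪fourierBasis i, uF l⟫_ℂ) (a := ⟪uF k, uF l⟫_ℂ)
    (by
      intro x hx
      have hx0 : ¬ 0 ≤ x := by
        intro h
        obtain ⟨m, rfl⟩ := Int.eq_ofNat_of_zero_le h
        exact hx ⟨m, rfl⟩
      have : ⟪fourierBasis x, uF (l : ℤ)⟫_ℂ = 0 := by
        rw [← HilbertBasis.repr_apply_apply, coeff_uF, if_neg]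
        omega
      rw [this, mul_zero])).2 h1
  have h3 := lp.hasSum_inner (𝕜 := ℂ) (v k) (v l)
  have h4 := h3.unique (h2.congr_fun fun n => ?_)
  · rw [h4, inner_uF]
    simp
  · show ⟪vfun k n, vfun l n⟫_ℂ = _
    rw [vfun_eq, vfun_eq, Function.comp_apply, RCLike.inner_apply, HilbertBasis.repr_apply_apply,
      HilbertBasis.repr_apply_apply, inner_conj_symm, mul_comm]

lemma orthonormal_v : Orthonormal ℂ v := by
  rw [orthonormal_iff_ite]
  exact inner_v

/-- the Toeplitz operator -/
def T : E →L[ℂ] E := orthonormal_v.orthogonalFamily.linearIsometry.toContinuousLinearMap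

def bv (k : ℕ) : E := lp.single 2 k (1 : ℂ)

lemma T_bv (k : ℕ) : T (bv k) = v k := by
  have := orthonormal_v.orthogonalFamily.linearIsometry_apply_single (i := k) (1 : ℂ)
  refine this.trans ?_
  simp

lemma norm_T (x : E) : ‖T x‖ = ‖x‖ := LinearIsometry.norm_map _ x

lemma conj_c (n : ℕ) : conj (c n) = c n := by
  have h1 : fourierCoeff aF (n : ℤ) = c n := by
    rw [coeff_aF, if_pos (by positivity)]; simp
  rw [← h1]
  unfold fourierCoeff
  rw [← integral_conj, ← integral_neg_eq_self]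
  congr 1
  ext θ
  have h2 : e (-θ) = conj (e θ) := by
    unfold e
    have h3 : (fourier 1 (-θ) : ℂ) = fourier (-1) θ := by
      simp [fourier_apply]
    rw [h3, fourier_neg]
  have h4 : aF (-θ) = conj (aF θ) := by
    unfold aF g
    rw [h2, ← Complex.exp_conj]
    simp
  have h5 : (fourier (-(n : ℤ)) (-θ) : ℂ) = conj (fourier (-(n : ℤ)) θ) := by
    rw [← fourier_neg, neg_neg]
    simp [fourier_apply]
  simp only [smul_eq_mul, map_mul]
  rw [h4, h5]
  simp

def S : E →L[ℂ] E := ContinuousLinearMap.adjoint T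

lemma inner_bv (k : ℕ) (x : E) : ⟪bv k, x⟫_ℂ = x k := by
  unfold bv
  rw [lp.inner_single_left]
  simp

lemma S_bv (k j : ℕ) : (S (bv k)) j = vfun j k := by
  rw [← inner_bv, S, ContinuousLinearMap.adjoint_inner_right, T_bv, ← inner_conj_symm, inner_bv]
  show conj (vfun j k) = vfun j k
  unfold vfun
  split_ifs
  · exact conj_c _
  · simp

lemma ST : S * T = 1 := (ContinuousLinearMap.norm_map_iff_adjoint_comp_self T).1 norm_T

end

end Pool.Agent.H788R2.Toep
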