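import Mathlib
import Pool.Agent.H788R2.Toep2

set_option autoImplicit false
open MeasureTheory Filter Topology Complex
open scoped ComplexConjugate InnerProductSpace

namespace Pool.Agent.H788R2.Toep

noncomputable section

/-- coordinate functional -/
def ev (j : ℕ) : E →L[ℂ] ℂ := innerSL ℂ (bv j)

lemma ev_apply (j : ℕ) (x : E) : ev j x = x j := by
  show ⟪bv j, x⟫_ℂ = x j
  exact inner_bv j x

lemma bv_apply (j k : ℕ) : (bv k) j = if j = k then 1 else 0 := by
  unfold bv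
  rw [lp.single_apply, Pi.single_apply]

/-- truncation -/
def P (n : ℕ) : E →L[ℂ] E := ∑ j ∈ Finset.range (n + 1), (ev j).smulRight (bv j)

/-- reversal -/
def W (n : ℕ) : E →L[ℂ] E := ∑ j ∈ Finset.range (n + 1), (ev (n - j)).smulRight (bv j)

lemma P_sum (n : ℕ) (x : E) : P n x = ∑ j ∈ Finset.range (n + 1), x j • bv j := by
  simp [P, ev_apply]

lemma W_sum (n : ℕ) (x : E) : W n x = ∑ j ∈ Finset.range (n + 1), x (n - j) • bv j := by
  simp [W, ev_apply]

lemma sum_bv_apply (n : ℕ) (f : ℕ → ℂ) (j : ℕ) :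
    (∑ k ∈ Finset.range (n + 1), f k • bv k : E) j = if j ≤ n then f j else 0 := by
  rw [lp.coeFn_sum, Finset.sum_apply]
  have : ∀ k ∈ Finset.range (n + 1), ((f k • bv k : E) : ℕ → ℂ) j = if j = k then f k else 0 := by
    intro k _
    rw [lp.coeFn_smul, Pi.smul_apply, bv_apply]
    simp
  rw [Finset.sum_congr rfl this]
  simp [Nat.lt_succ_iff]

lemma P_apply (n : ℕ) (x : E) (j : ℕ) : (P n x) j = if j ≤ n then x j else 0 := by
  rw [P_sum, sum_bv_apply n (fun j => x j)]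

lemma W_apply (n : ℕ) (x : E) (j : ℕ) : (W n x) j = if j ≤ n then x (n - j) else 0 := by
  rw [W_sum, sum_bv_apply n (fun j => x (n - j))]

lemma norm_sq_of_finite (n : ℕ) (f : E) (hf : ∀ j, n < j → f j = 0) :
    ‖f‖ ^ 2 = ∑ j ∈ Finset.range (n + 1), ‖f j‖ ^ 2 := by
  have h1 := lp.norm_rpow_eq_tsum (p := 2) (by norm_num) f
  have h2 : ∀ j ∉ Finset.range (n + 1), ‖f j‖ ^ (ENNReal.toReal 2) = 0 := by
    intro j hj
    rw [hf j (by simpa [Nat.lt_succ_iff] using hj)]
    simp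
  rw [tsum_eq_sum h2] at h1
  simpa using h1

lemma norm_P_le (n : ℕ) (x : E) : ‖P n x‖ ≤ ‖x‖ := by
  apply lp.norm_mono (by norm_num)
  intro j
  rw [P_apply]
  split_ifs
  · exact le_refl _
  · simp

lemma norm_W_le (n : ℕ) (x : E) : ‖W n x‖ ≤ ‖x‖ := by
  have h1 : ‖W n x‖ ^ 2 = ‖P n x‖ ^ 2 := by
    rw [norm_sq_of_finite n _ (fun j hj => by rw [W_apply, if_neg (by omega)]),
      norm_sq_of_finite n _ (fun j hj => by rw [P_apply, if_neg (by omega)]),
      ← Finset.sum_range_reflect]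
    refine Finset.sum_congr rfl fun j hj => ?_
    have : j ≤ n := by simpa [Nat.lt_succ_iff] using hj
    have e2 : n - (n + 1 - 1 - j) = j := by omega
    rw [W_apply, P_apply, if_pos (by omega), if_pos (by omega), e2]
  have h2 : ‖W n x‖ = ‖P n x‖ := by
    rw [← abs_of_nonneg (norm_nonneg (W n x)), ← abs_of_nonneg (norm_nonneg (P n x))]
    exact (sq_eq_sq_iff_abs_eq_abs _ _).1 h1
  rw [h2]
  exact norm_P_le n x

/-- continuous (strong) convergence of a sequence of operators -/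
def SC (B : ℕ → (E →L[ℂ] E)) (B' : E →L[ℂ] E) : Prop :=
  ∀ (x : ℕ → E) (x' : E), Tendsto x atTop (𝓝 x') → Tendsto (fun n => B n (x n)) atTop (𝓝 (B' x'))

lemma SC.mul {B C : ℕ → (E →L[ℂ] E)} {B' C' : E →L[ℂ] E} (hB : SC B B') (hC : SC C C') :
    SC (fun n => B n * C n) (B' * C') := fun x x' hx => hB _ _ (hC _ _ hx)

lemma SC.sub {B C : ℕ → (E →L[ℂ] E)} {B' C' : E →L[ℂ] E} (hB : SC B B') (hC : SC C C') :
    SC (fun n => B n - C n) (B' - C') := fun x x' hx => (hB _ _ hx).sub (hC _ _ hx)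

lemma SC_const (B : E →L[ℂ] E) : SC (fun _ => B) B := fun _ x' hx => (B.continuous.tendsto x').comp hx

lemma tendsto_P (x : E) : Tendsto (fun n => P n x) atTop (𝓝 x) := by
  have h1 := (lp.hasSum_single (p := 2) (by norm_num) x).tendsto_sum_nat
  have h2 := h1.comp (tendsto_add_atTop_nat 1)
  refine h2.congr fun n => ?_
  rw [Function.comp_apply, P_sum]
  refine Finset.sum_congr rfl fun j _ => ?_
  unfold bv
  rw [← lp.single_smul]
  simp

lemma SC_P : SC P 1 := by
  intro x x' hx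
  have h1 : Tendsto (fun n => P n (x n - x')) atTop (𝓝 0) := by
    apply squeeze_zero_norm (fun n => norm_P_le n _)
    have := (hx.sub_const x').norm
    simpa using this
  have h2 := h1.add (tendsto_P x')
  rw [zero_add] at h2
  refine h2.congr fun n => ?_
  rw [← map_add]
  simp

/-- finite sections of `T(a)` and of its adjoint -/
def Tn (n : ℕ) : E →L[ℂ] E := P n * T * P n
def Sn (n : ℕ) : E →L[ℂ] E := P n * S * P n

lemma SC_Tn : SC Tn T := by
  have := (SC_P.mul (SC_const T)).mul SC_P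
  rw [one_mul, mul_one] at this
  exact this

lemma SC_Sn : SC Sn S := by
  have := (SC_P.mul (SC_const S)).mul SC_P
  rw [one_mul, mul_one] at this
  exact this

lemma Tn_apply (n : ℕ) (x : E) (j : ℕ) :
    (Tn n x) j = if j ≤ n then ∑ k ∈ Finset.range (n + 1), x k * vfun k j else 0 := by
  show (P n (T (P n x))) j = _
  rw [P_apply, P_sum, map_sum, lp.coeFn_sum, Finset.sum_apply]
  congr 1
  refine Finset.sum_congr rfl fun k _ => ?_
  rw [map_smul, T_bv, lp.coeFn_smul, Pi.smul_apply]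
  rfl

lemma Sn_apply (n : ℕ) (x : E) (j : ℕ) :
    (Sn n x) j = if j ≤ n then ∑ k ∈ Finset.range (n + 1), x k * vfun j k else 0 := by
  show (P n (S (P n x))) j = _
  rw [P_apply, P_sum, map_sum, lp.coeFn_sum, Finset.sum_apply]
  congr 1
  refine Finset.sum_congr rfl fun k _ => ?_
  rw [map_smul, lp.coeFn_smul, Pi.smul_apply, S_bv]
  rfl

lemma vfun_reflect {n j k : ℕ} (hj : j ≤ n) (hk : k ≤ n) : vfun (n - k) (n - j) = vfun j k := by
  unfold vfun
  by_cases h : j ≤ k
  · rw [if_pos h, if_pos (by omega)]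
    congr 1
    omega
  · rw [if_neg h, if_neg (by omega)]

lemma WTW (n : ℕ) : W n * Tn n * W n = Sn n := by
  ext x j
  show (W n (Tn n (W n x))) j = _
  rw [W_apply, Sn_apply]
  by_cases hj : j ≤ n
  · rw [if_pos hj, if_pos hj, Tn_apply, if_pos (by omega), ← Finset.sum_range_reflect]
    refine Finset.sum_congr rfl fun k hk => ?_
    have hk : k ≤ n := by simpa [Nat.lt_succ_iff] using hk
    have e1 : n + 1 - 1 - k = n - k := by omega
    have e2 : n - (n - k) = k := by omega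
    rw [e1, W_apply, if_pos (by omega), vfun_reflect hj hk, e2]
  · rw [if_neg hj, if_neg hj]

lemma WSW (n : ℕ) : W n * Sn n * W n = Tn n := by
  ext x j
  show (W n (Sn n (W n x))) j = _
  rw [W_apply, Tn_apply]
  by_cases hj : j ≤ n
  · rw [if_pos hj, if_pos hj, Sn_apply, if_pos (by omega), ← Finset.sum_range_reflect]
    refine Finset.sum_congr rfl fun k hk => ?_
    have hk : k ≤ n := by simpa [Nat.lt_succ_iff] using hk
    have e1 : n + 1 - 1 - k = n - k := by omega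
    have e2 : n - (n - k) = k := by omega
    rw [e1, W_apply, if_pos (by omega), vfun_reflect hk hj, e2]
  · rw [if_neg hj, if_neg hj]

lemma WW (n : ℕ) : W n * W n = P n := by
  ext x j
  show (W n (W n x)) j = _
  rw [W_apply, P_apply]
  by_cases hj : j ≤ n
  · have e2 : n - (n - j) = j := by omega
    rw [if_pos hj, if_pos hj, W_apply, if_pos (by omega), e2]
  · rw [if_neg hj, if_neg hj]

lemma PP (n : ℕ) : P n * P n = P n := by
  ext x j
  show (P n (P n x)) j = _
  rw [P_apply, P_apply]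
  by_cases hj : j ≤ n
  · rw [if_pos hj, if_pos hj]
  · rw [if_neg hj, if_neg hj]

lemma PW (n : ℕ) : P n * W n = W n := by
  ext x j
  show (P n (W n x)) j = _
  rw [P_apply, W_apply]
  by_cases hj : j ≤ n
  · rw [if_pos hj, if_pos hj]
  · rw [if_neg hj, if_neg hj]

lemma PTn (n : ℕ) : P n * Tn n = Tn n := by
  unfold Tn; rw [← mul_assoc, ← mul_assoc, PP]

lemma PSn (n : ℕ) : P n * Sn n = Sn n := by
  unfold Sn; rw [← mul_assoc, ← mul_assoc, PP]

/-- the counterexample sequence -/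
def A (n : ℕ) : E →L[ℂ] E := (P n - Sn n * Tn n) * (P n - Tn n * Sn n)

lemma SC_A : SC A 0 := by
  have h1 := SC_P.sub (SC_Sn.mul SC_Tn)
  have h2 := SC_P.sub (SC_Tn.mul SC_Sn)
  have h3 := h1.mul h2
  rw [ST, sub_self, zero_mul] at h3
  exact h3

lemma WAW (n : ℕ) : W n * A n * W n = (P n - Tn n * Sn n) * (P n - Sn n * Tn n) := by
  have h1 : W n * P n * W n = P n := by rw [mul_assoc, PW, WW]
  have h2 : W n * (Tn n * Sn n) * W n = Sn n * Tn n := by
    calc W n * (Tn n * Sn n) * W n = W n * (Tn n * (P n * Sn n)) * W n := by rw [PSn]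
      _ = (W n * Tn n * W n) * (W n * Sn n * W n) := by rw [← WW]; noncomm_ring
      _ = Sn n * Tn n := by rw [WTW, WSW]
  have h3 : W n * (Sn n * Tn n) * W n = Tn n * Sn n := by
    calc W n * (Sn n * Tn n) * W n = W n * (Sn n * (P n * Tn n)) * W n := by rw [PTn]
      _ = (W n * Sn n * W n) * (W n * Tn n * W n) := by rw [← WW]; noncomm_ring
      _ = Tn n * Sn n := by rw [WTW, WSW]
  have h4 : P n * (P n - Tn n * Sn n) = P n - Tn n * Sn n := by
    rw [mul_sub, PP, ← mul_assoc, PTn]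
  have h5 : W n * (P n - Sn n * Tn n) * W n = P n - Tn n * Sn n := by
    rw [mul_sub, sub_mul, h1, h3]
  have h6 : W n * (P n - Tn n * Sn n) * W n = P n - Sn n * Tn n := by
    rw [mul_sub, sub_mul, h1, h2]
  calc W n * A n * W n = W n * ((P n - Sn n * Tn n) * (P n * (P n - Tn n * Sn n))) * W n := by
        rw [h4]; rfl
    _ = (W n * (P n - Sn n * Tn n) * W n) * (W n * (P n - Tn n * Sn n) * W n) := by
        rw [← WW]; noncomm_ring
    _ = _ := by rw [h5, h6]

lemma SC_WAW : SC (fun n => W n * A n * W n) 0 := by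
  have h1 := SC_P.sub (SC_Sn.mul SC_Tn)
  have h2 := SC_P.sub (SC_Tn.mul SC_Sn)
  have h3 := h2.mul h1
  rw [ST, sub_self, mul_zero] at h3
  intro x x' hx
  have := h3 x x' hx
  refine this.congr fun n => ?_
  show _ = (W n * A n * W n) (x n)
  rw [WAW]

/-- the normalised constant vectors -/
def X (n : ℕ) : E := ∑ k ∈ Finset.range (n + 1), (((Real.sqrt (n + 1))⁻¹ : ℝ) : ℂ) • bv k

lemma X_apply (n j : ℕ) : (X n) j = if j ≤ n then (((Real.sqrt (n + 1))⁻¹ : ℝ) : ℂ) else 0 := by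
  unfold X
  rw [sum_bv_apply n (fun _ => (((Real.sqrt (n + 1))⁻¹ : ℝ) : ℂ))]

lemma sq_inv (n : ℕ) : ‖(((Real.sqrt ((n : ℝ) + 1))⁻¹ : ℝ) : ℂ)‖ ^ 2 = 1 / ((n : ℝ) + 1) := by
  rw [Complex.norm_real, Real.norm_of_nonneg (by positivity), inv_pow, Real.sq_sqrt (by positivity),
    one_div]

lemma norm_X (n : ℕ) : ‖X n‖ = 1 := by
  have h1 : ‖X n‖ ^ 2 = 1 := by
    rw [norm_sq_of_finite n _ (fun j hj => by rw [X_apply, if_neg (by omega)])]
    have : ∀ j ∈ Finset.range (n + 1), ‖(X n) j‖ ^ 2 = 1 / ((n : ℝ) + 1) := by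
      intro j hj
      have : j ≤ n := by simpa [Nat.lt_succ_iff] using hj
      rw [X_apply, if_pos this, sq_inv]
    rw [Finset.sum_congr rfl this]
    simp
    field_simp
  have h2 : (0 : ℝ) ≤ ‖X n‖ := norm_nonneg _
  nlinarith

lemma WX (n : ℕ) : W n (X n) = X n := by
  ext j
  show (W n (X n)) j = (X n) j
  rw [W_apply, X_apply, X_apply]
  by_cases hj : j ≤ n
  · rw [if_pos hj, if_pos hj, if_pos (by omega)]
  · rw [if_neg hj, if_neg hj]

lemma PX (n : ℕ) : P n (X n) = X n := by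
  ext j
  show (P n (X n)) j = (X n) j
  rw [P_apply, X_apply]
  by_cases hj : j ≤ n
  · rw [if_pos hj]
  · rw [if_neg hj, if_neg hj]

lemma norm_TX_sq (n : ℕ) : ‖Tn n (X n)‖ ^ 2 =
    (∑ k ∈ Finset.range (n + 1), ‖s k‖ ^ 2) / (n + 1) := by
  rw [norm_sq_of_finite n _ (fun j hj => by rw [Tn_apply, if_neg (by omega)]), Finset.sum_div]
  refine Finset.sum_congr rfl fun j hj => ?_
  have hj : j ≤ n := by simpa [Nat.lt_succ_iff] using hj
  rw [Tn_apply, if_pos hj]
  have h1 : ∑ k ∈ Finset.range (n + 1), (X n) k * vfun k j =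
      (((Real.sqrt (n + 1))⁻¹ : ℝ) : ℂ) * s j := by
    have h2 : ∀ k ∈ Finset.range (n + 1), (X n) k * vfun k j =
        (((Real.sqrt (n + 1))⁻¹ : ℝ) : ℂ) * vfun k j := by
      intro k hk
      have : k ≤ n := by simpa [Nat.lt_succ_iff] using hk
      rw [X_apply, if_pos this]
    rw [Finset.sum_congr rfl h2, ← Finset.mul_sum]
    congr 1
    unfold s
    have h3 : ∑ k ∈ Finset.range (n + 1), vfun k j = ∑ k ∈ Finset.range (j + 1), vfun k j := by
      symm
      apply Finset.sum_subset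
      · intro k hk
        simp only [Finset.mem_range] at hk ⊢
        omega
      · intro k _ hk
        unfold vfun
        rw [if_neg]
        simp only [Finset.mem_range] at hk
        omega
    rw [h3, ← Finset.sum_range_reflect c (j + 1)]
    refine Finset.sum_congr rfl fun k hk => ?_
    have : k ≤ j := by simpa [Nat.lt_succ_iff] using hk
    unfold vfun
    rw [if_pos this]
    congr 1
  rw [h1, norm_mul, mul_pow, sq_inv]
  ring

lemma tendsto_TX : Tendsto (fun n => ‖Tn n (X n)‖) atTop (𝓝 0) := by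
  have h1 := tendsto_mean
  have h2 := (Real.continuous_sqrt.tendsto 0).comp h1
  rw [Real.sqrt_zero] at h2
  refine h2.congr fun n => ?_
  rw [Function.comp_apply, ← norm_TX_sq, Real.sqrt_sq (norm_nonneg _)]

lemma norm_SX_le (n : ℕ) : ‖Sn n (X n)‖ ≤ ‖Tn n (X n)‖ := by
  rw [← WTW]
  show ‖W n (Tn n (W n (X n)))‖ ≤ _
  rw [WX]
  exact norm_W_le _ _

lemma norm_Tn_le (n : ℕ) (x : E) : ‖Tn n x‖ ≤ ‖x‖ := by
  show ‖P n (T (P n x))‖ ≤ _
  refine (norm_P_le _ _).trans ?_
  rw [norm_T]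
  exact norm_P_le _ _

lemma norm_Sn_le (n : ℕ) (x : E) : ‖Sn n x‖ ≤ ‖x‖ := by
  rw [← WTW]
  show ‖W n (Tn n (W n x))‖ ≤ _
  exact (norm_W_le _ _).trans ((norm_Tn_le _ _).trans (norm_W_le _ _))

lemma norm_AX (n : ℕ) : ‖A n (X n) - X n‖ ≤ 3 * ‖Tn n (X n)‖ := by
  have h1 : A n (X n) - X n = - Tn n (Sn n (X n)) - Sn n (Tn n (X n)) +
      Sn n (Tn n (Tn n (Sn n (X n)))) := by
    have h0 : A n (X n) = P n (P n (X n) - Tn n (Sn n (X n))) -
        Sn n (Tn n (P n (X n) - Tn n (Sn n (X n)))) := rfl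
    have h2 : P n (Tn n (Sn n (X n))) = Tn n (Sn n (X n)) := by
      have := congrArg (fun B : E →L[ℂ] E => B (Sn n (X n))) (PTn n)
      exact this
    rw [h0, PX, map_sub, map_sub, map_sub, PX, h2]
    abel
  rw [h1]
  have h3 : ‖Tn n (Sn n (X n))‖ ≤ ‖Tn n (X n)‖ := (norm_Tn_le _ _).trans (norm_SX_le n)
  have h4 : ‖Sn n (Tn n (X n))‖ ≤ ‖Tn n (X n)‖ := norm_Sn_le _ _
  have h5 : ‖Sn n (Tn n (Tn n (Sn n (X n))))‖ ≤ ‖Tn n (X n)‖ :=
    (norm_Sn_le _ _).trans ((norm_Tn_le _ _).trans h3)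
  calc ‖- Tn n (Sn n (X n)) - Sn n (Tn n (X n)) + Sn n (Tn n (Tn n (Sn n (X n))))‖
      ≤ ‖- Tn n (Sn n (X n)) - Sn n (Tn n (X n))‖ + ‖Sn n (Tn n (Tn n (Sn n (X n))))‖ :=
        norm_add_le _ _
    _ ≤ ‖- Tn n (Sn n (X n))‖ + ‖Sn n (Tn n (X n))‖ + ‖Sn n (Tn n (Tn n (Sn n (X n))))‖ := by
        gcongr; exact norm_sub_le _ _
    _ ≤ 3 * ‖Tn n (X n)‖ := by rw [norm_neg]; linarith

/-- the constant vectors tend weakly to zero -/
lemma weak_X (z : E) : Tendsto (fun n => ⟪z, X n⟫_ℂ) atTop (𝓝 0) := by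
  have hb : ∀ j, Tendsto (fun n => ⟪bv j, X n⟫_ℂ) atTop (𝓝 0) := by
    intro j
    rw [tendsto_zero_iff_norm_tendsto_zero]
    have h1 : Tendsto (fun n : ℕ => (Real.sqrt ((n : ℝ) + 1))⁻¹) atTop (𝓝 0) := by
      apply Tendsto.inv_tendsto_atTop
      apply Real.tendsto_sqrt_atTop.comp
      exact tendsto_atTop_add_const_right _ _ tendsto_natCast_atTop_atTop
    refine squeeze_zero (fun n => norm_nonneg _) (fun n => ?_) h1
    rw [inner_bv, X_apply]
    split_ifs
    · rw [Complex.norm_real, Real.norm_of_nonneg (by positivity)]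
    · simp
  have hP : ∀ m, Tendsto (fun n => ⟪P m z, X n⟫_ℂ) atTop (𝓝 0) := by
    intro m
    simp_rw [P_sum, sum_inner, inner_smul_left]
    have : Tendsto (fun n => ∑ j ∈ Finset.range (m + 1), conj (z j) * ⟪bv j, X n⟫_ℂ) atTop
        (𝓝 (∑ j ∈ Finset.range (m + 1), conj (z j) * 0)) :=
      tendsto_finsetSum _ fun j _ => (hb j).const_mul _
    simpa using this
  rw [Metric.tendsto_atTop]
  intro ε hε
  obtain ⟨m, hm⟩ := (Metric.tendsto_atTop.1 (tendsto_P z)) (ε / 2) (by linarith)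
  obtain ⟨N, hN⟩ := (Metric.tendsto_atTop.1 (hP m)) (ε / 2) (by linarith)
  refine ⟨N, fun n hn => ?_⟩
  have h1 := hm m le_rfl
  have h2 := hN n hn
  rw [dist_zero_right] at h2 ⊢
  rw [dist_eq_norm] at h1
  have h3 : ⟪z, X n⟫_ℂ = ⟪P m z, X n⟫_ℂ - ⟪P m z - z, X n⟫_ℂ := by
    rw [inner_sub_left]; ring
  rw [h3]
  have h4 : ‖⟪P m z - z, X n⟫_ℂ‖ ≤ ‖P m z - z‖ := by
    have := norm_inner_le_norm (𝕜 := ℂ) (P m z - z) (X n)
    rwa [norm_X, mul_one] at this
  calc _ ≤ ‖⟪P m z, X n⟫_ℂ‖ + ‖⟪P m z - z, X n⟫_ℂ‖ := norm_sub_le _ _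
    _ < ε := by linarith

lemma compact_X (K : E →L[ℂ] E) (hK : IsCompactOperator K) :
    Tendsto (fun n => K (X n)) atTop (𝓝 0) := by
  have hc := hK.isCompact_closure_image_closedBall 1
  apply tendsto_of_subseq_tendsto
  intro ns hns
  obtain ⟨y, _, φ, hφ, hy⟩ := hc.tendsto_subseq (x := fun n => K (X (ns n))) (fun n => by
    apply subset_closure
    refine ⟨X (ns n), ?_, rfl⟩
    rw [mem_closedBall_zero_iff, norm_X])
  refine ⟨φ, ?_⟩
  have h1 : Tendsto (fun n => ⟪y, K (X (ns (φ n)))⟫_ℂ) atTop (𝓝 ⟪y, y⟫_ℂ) :=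
    tendsto_const_nhds.inner hy
  have h2 : Tendsto (fun n => ⟪y, K (X (ns (φ n)))⟫_ℂ) atTop (𝓝 0) := by
    have h3 := (weak_X (ContinuousLinearMap.adjoint K y)).comp (hns.comp hφ.tendsto_atTop)
    refine h3.congr fun n => ?_
    rw [Function.comp_apply, Function.comp_apply, ContinuousLinearMap.adjoint_inner_left]
  have h4 := tendsto_nhds_unique h1 h2
  rw [inner_self_eq_zero] at h4
  rw [h4] at hy
  exact hy

/-- the sequence `A` is not in the ideal `J` -/
lemma not_in_J : ¬ ∃ K K' : E →L[ℂ] E, IsCompactOperator K ∧ IsCompactOperator K' ∧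
    ∃ C : ℕ → (E →L[ℂ] E), (∀ n, C n = P n * C n * P n) ∧
      Tendsto (fun n => ‖C n‖) atTop (𝓝 0) ∧
      ∀ n, A n = P n * K * P n + W n * K' * W n + C n := by
  rintro ⟨K, K', hK, hK', C, _, hC, hA⟩
  have h1 : Tendsto (fun n => A n (X n)) atTop (𝓝 0) := by
    have e1 : ∀ n, A n (X n) = P n (K (X n)) + W n (K' (X n)) + C n (X n) := by
      intro n
      rw [hA n]
      show P n (K (P n (X n))) + W n (K' (W n (X n))) + C n (X n) = _
      rw [PX, WX]
    have h2 : Tendsto (fun n => P n (K (X n))) atTop (𝓝 0) :=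
      squeeze_zero_norm (fun n => norm_P_le n _) (by simpa using (compact_X K hK).norm)
    have h3 : Tendsto (fun n => W n (K' (X n))) atTop (𝓝 0) :=
      squeeze_zero_norm (fun n => norm_W_le n _) (by simpa using (compact_X K' hK').norm)
    have h4 : Tendsto (fun n => C n (X n)) atTop (𝓝 0) := by
      refine squeeze_zero_norm (fun n => ?_) hC
      have := (C n).le_opNorm (X n)
      rwa [norm_X, mul_one] at this
    have h5 := (h2.add h3).add h4
    rw [add_zero, add_zero] at h5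
    exact h5.congr fun n => (e1 n).symm
  have h2 : Tendsto (fun n => A n (X n) - X n) atTop (𝓝 0) := by
    refine squeeze_zero_norm norm_AX ?_
    simpa using tendsto_TX.const_mul 3
  have h3 := (h1.sub h2).norm
  simp only [sub_sub_cancel, norm_X, sub_self, norm_zero] at h3
  have := tendsto_nhds_unique h3 tendsto_const_nhds
  exact one_ne_zero this.symm

end

end Pool.Agent.H788R2.Toep
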