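import Mathlib
import Pool.Agent.Helper242.RK.Log

set_option autoImplicit false
open Filter Topology Complex Metric

namespace Pool.Agent.H788R2.Trunc

/-- A zero-free analytic function with a good upper bound has small third differences of its
logarithm. -/
lemma kink {F : ℂ → ℂ} {c : ℂ} {ρ M a τ : ℝ} (hρ : 0 < ρ) (hM : 0 < M)
    (hF : DifferentiableOn ℂ F (ball c ρ)) (hne : ∀ z ∈ ball c ρ, F z ≠ 0)
    (hb : ∀ z ∈ ball c ρ, Real.log ‖F z‖ ≤ Real.log ‖F c‖ + a * (z - c).im + M)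
    (hτ0 : 0 < τ) (hτ : τ < 1 / 4) :
    |Real.log ‖F (c + ((2 * (τ * ρ) : ℝ) : ℂ) * I)‖ - 3 * Real.log ‖F (c + ((τ * ρ : ℝ) : ℂ) * I)‖
      + 3 * Real.log ‖F c‖ - Real.log ‖F (c + ((-(τ * ρ) : ℝ) : ℂ) * I)‖| ≤
      2 * M * (4 * τ) ^ 3 / (1 - 4 * τ) := by
  obtain ⟨L, hLd, hL⟩ := Pool.Agent.Helper242.RK.exists_log (convex_ball c ρ) isOpen_ball
    (nonempty_ball.2 hρ) hF hne
  have hre : ∀ z ∈ ball c ρ, (L z).re = Real.log ‖F z‖ := by
    intro z hz
    rw [← hL z hz, Complex.norm_exp, Real.log_exp]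
  have hcm : c ∈ ball c ρ := mem_ball_self hρ
  have hadd : ∀ z ∈ ball (0 : ℂ) ρ, c + z ∈ ball c ρ := by
    intro z hz
    simpa [dist_eq_norm] using hz
  set f : ℂ → ℂ := fun z => L (c + z) - L c + I * a * z with hf
  have hfd : DifferentiableOn ℂ f (ball 0 ρ) := by
    apply DifferentiableOn.add
    · apply DifferentiableOn.sub_const
      exact hLd.comp (by fun_prop) hadd
    · fun_prop
  have hf0 : f 0 = 0 := by simp [hf]
  have hfre : ∀ z ∈ ball (0 : ℂ) ρ, (f z).re = Real.log ‖F (c + z)‖ - Real.log ‖F c‖ - a * z.im := by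
    intro z hz
    simp only [hf, add_re, sub_re, hre _ (hadd z hz), hre c hcm]
    have : (I * a * z).re = - (a * z.im) := by simp
    rw [this]; ring
  have hfM : Set.MapsTo f (ball 0 ρ) {z | z.re ≤ M} := by
    intro z hz
    show (f z).re ≤ M
    rw [hfre z hz]
    have := hb _ (hadd z hz)
    rw [add_sub_cancel_left] at this
    linarith
  have hBC : ∀ z ∈ sphere (0 : ℂ) (ρ / 2), ‖f z‖ ≤ 2 * M := by
    intro z hz
    have hzn : ‖z‖ = ρ / 2 := by simpa using hz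
    have h1 := Complex.borelCaratheodory_zero hM hfd hfM hρ (z := z)
      (by rw [mem_ball_zero_iff, hzn]; linarith) hf0
    rw [hzn] at h1
    refine h1.trans (le_of_eq ?_)
    field_simp
    ring
  set co : ℕ → ℂ := fun n => ((n.factorial : ℂ))⁻¹ * iteratedDeriv n f 0 with hco
  have hdc : DiffContOnCl ℂ f (ball 0 (ρ / 2)) := by
    apply DifferentiableOn.diffContOnCl
    apply hfd.mono
    rw [closure_ball _ (by positivity)]
    exact closedBall_subset_ball (by linarith)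
  have hcob : ∀ n, ‖co n‖ ≤ 2 * M / (ρ / 2) ^ n := by
    intro n
    have h1 := Complex.norm_iteratedDeriv_le_of_forall_mem_sphere_norm_le n
      (by positivity : 0 < ρ / 2) hdc hBC
    simp only [hco]
    rw [norm_mul, norm_inv, Complex.norm_natCast]
    have hfac : (0 : ℝ) < n.factorial := by positivity
    calc (n.factorial : ℝ)⁻¹ * ‖iteratedDeriv n f 0‖ ≤
        (n.factorial : ℝ)⁻¹ * (n.factorial * (2 * M) / (ρ / 2) ^ n) := by gcongr
      _ = _ := by field_simp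
  have hsum : ∀ z ∈ ball (0 : ℂ) ρ, HasSum (fun n => co n * z ^ n) (f z) := by
    intro z hz
    have h1 := Complex.hasSum_taylorSeries_on_ball hfd hz
    refine h1.congr_fun fun n => ?_
    simp only [hco, sub_zero, smul_eq_mul]
    ring
  set s : ℝ := τ * ρ with hs
  have hs0 : 0 < s := by positivity
  have hs4 : 4 * s < ρ := by rw [hs]; nlinarith
  have hm : ∀ x : ℝ, |x| ≤ 2 * s → ((x : ℂ) * I) ∈ ball (0 : ℂ) ρ := by
    intro x hx
    rw [mem_ball_zero_iff, norm_mul, Complex.norm_I, mul_one, Complex.norm_real, Real.norm_eq_abs]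
    linarith
  have m2 := hm (2 * s) (by rw [abs_of_pos (by positivity)])
  have m1 := hm s (by rw [abs_of_pos hs0]; linarith)
  have mm := hm (-s) (by rw [abs_neg, abs_of_pos hs0]; linarith)
  set T : ℂ := f (((2 * s : ℝ) : ℂ) * I) - 3 * f ((s : ℂ) * I) - f (((-s : ℝ) : ℂ) * I) with hT
  have hT1 : HasSum (fun n => co n * (((s : ℂ) * I) ^ n * (2 ^ n - 3 - (-1) ^ n))) T := by
    have h1 := ((hsum _ m2).sub ((hsum _ m1).mul_left 3)).sub (hsum _ mm)
    refine h1.congr_fun fun n => ?_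
    have e1 : ((((2 * s : ℝ) : ℂ)) * I) ^ n = 2 ^ n * ((s : ℂ) * I) ^ n := by
      push_cast; rw [← mul_pow]; congr 1; ring
    have e2 : ((((-s : ℝ) : ℂ)) * I) ^ n = (-1) ^ n * ((s : ℂ) * I) ^ n := by
      push_cast; rw [← mul_pow]; congr 1; ring
    rw [e1, e2]
    ring
  have hT2 : HasSum (fun n => co (n + 3) * (((s : ℂ) * I) ^ (n + 3) * (2 ^ (n + 3) - 3 - (-1) ^ (n + 3)))) T := by
    have h1 := (hasSum_nat_add_iff' 3).2 hT1
    have h2 : ∑ i ∈ Finset.range 3, co i * (((s : ℂ) * I) ^ i * (2 ^ i - 3 - (-1) ^ i)) = 0 := by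
      rw [Finset.sum_range_succ, Finset.sum_range_succ, Finset.sum_range_succ, Finset.sum_range_zero]
      have : co 0 = 0 := by simp [hco, hf0]
      rw [this]
      ring
    rw [h2, sub_zero] at h1
    exact h1
  have hTb : ∀ n : ℕ, ‖co (n + 3) * (((s : ℂ) * I) ^ (n + 3) * (2 ^ (n + 3) - 3 - (-1) ^ (n + 3)))‖ ≤
      2 * M * (4 * τ) ^ 3 * (4 * τ) ^ n := by
    intro n
    have hsI : ‖(s : ℂ) * I‖ = s := by
      rw [norm_mul, Complex.norm_I, mul_one, Complex.norm_real, Real.norm_of_nonneg hs0.le]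
    rw [norm_mul (co (n + 3)), norm_mul (((s : ℂ) * I) ^ (n + 3)), norm_pow, hsI]
    have h1 : ‖(2 : ℂ) ^ (n + 3) - 3 - (-1) ^ (n + 3)‖ ≤ 2 ^ (n + 3) := by
      have h2 : (2 : ℂ) ^ (n + 3) - 3 - (-1) ^ (n + 3) =
          (((2 : ℝ) ^ (n + 3) - 3 - (-1) ^ (n + 3) : ℝ) : ℂ) := by push_cast; ring
      rw [h2, Complex.norm_real, Real.norm_eq_abs, abs_le]
      have h3 : (8 : ℝ) ≤ 2 ^ (n + 3) := by
        calc (8 : ℝ) = 2 ^ 3 := by norm_num
          _ ≤ 2 ^ (n + 3) := pow_le_pow_right₀ (by norm_num) (by omega)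
      rcases neg_one_pow_eq_or ℝ (n + 3) with h4 | h4 <;> rw [h4] <;> constructor <;> linarith
    calc ‖co (n + 3)‖ * (s ^ (n + 3) * ‖(2 : ℂ) ^ (n + 3) - 3 - (-1) ^ (n + 3)‖)
        ≤ (2 * M / (ρ / 2) ^ (n + 3)) * (s ^ (n + 3) * 2 ^ (n + 3)) := by
          gcongr
          exact hcob _
      _ = 2 * M * (4 * τ) ^ 3 * (4 * τ) ^ n := by
          have h5 : s ^ (n + 3) * 2 ^ (n + 3) = (4 * τ) ^ (n + 3) * (ρ / 2) ^ (n + 3) := by
            rw [← mul_pow, ← mul_pow]; congr 1; rw [hs]; ring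
          rw [h5, pow_add (4 * τ)]
          have : (ρ / 2) ^ (n + 3) ≠ 0 := by positivity
          field_simp
  have hgeo : HasSum (fun n : ℕ => 2 * M * (4 * τ) ^ 3 * (4 * τ) ^ n)
      (2 * M * (4 * τ) ^ 3 * (1 - 4 * τ)⁻¹) :=
    (hasSum_geometric_of_lt_one (by positivity) (by linarith)).mul_left _
  have hTn : ‖T‖ ≤ 2 * M * (4 * τ) ^ 3 / (1 - 4 * τ) := by
    rw [div_eq_mul_inv]
    exact hT2.norm_le_of_bounded hgeo hTb
  have hTre : T.re = Real.log ‖F (c + ((2 * s : ℝ) : ℂ) * I)‖ - 3 * Real.log ‖F (c + (s : ℂ) * I)‖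
      + 3 * Real.log ‖F c‖ - Real.log ‖F (c + ((-s : ℝ) : ℂ) * I)‖ := by
    have him : ∀ x : ℝ, ((x : ℂ) * I).im = x := by intro x; simp
    have h3 : (3 * f ((s : ℂ) * I)).re = 3 * (f ((s : ℂ) * I)).re := by simp
    rw [hT, sub_re, sub_re, h3, hfre _ m2, hfre _ m1, hfre _ mm, him, him, him]
    ring
  rw [← hTre]
  exact (Complex.abs_re_le_norm T).trans hTn

end Pool.Agent.H788R2.Trunc
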