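import Mathlib
import Pool.Agent.Helper242.RK.Growth
import Pool.Agent.H788R2.Trunc1

set_option autoImplicit false
open Filter Topology Complex Metric MeasureTheory

namespace Pool.Agent.H788R2.Trunc

open Pool.Agent.Helper242.RK (Phi Phi_lower Phi_pos continuous_Phi summable_Phi norm_cos_le)

noncomputable section

/-- the truncated transform -/
def H (R : ℝ) (z : ℂ) : ℂ := ∫ t in (0 : ℝ)..R, ((Phi t : ℝ) : ℂ) * Complex.cos (z * t)

/-- its values on the imaginary axis -/
def gg (R y : ℝ) : ℝ := ∫ t in (0 : ℝ)..R, Phi t * Real.cosh (y * t)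

lemma cont_cosh (y : ℝ) : Continuous (fun t : ℝ => Phi t * Real.cosh (y * t)) :=
  continuous_Phi.mul (by fun_prop)

lemma H_I (R y : ℝ) : H R ((y : ℂ) * I) = ((gg R y : ℝ) : ℂ) := by
  unfold H gg
  rw [← intervalIntegral.integral_ofReal]
  congr 1
  ext t
  have : (y : ℂ) * I * t = ((y * t : ℝ) : ℂ) * I := by push_cast; ring
  rw [this, Complex.cos_mul_I]
  push_cast
  ring

lemma norm_H_le {R : ℝ} (hR : 0 ≤ R) (z : ℂ) : ‖H R z‖ ≤ gg R z.im := by
  unfold H gg
  refine intervalIntegral.norm_integral_le_of_norm_le hR ?_ ((cont_cosh _).intervalIntegrable _ _)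
  refine Eventually.of_forall fun t _ => ?_
  rw [norm_mul, Complex.norm_real, Real.norm_of_nonneg (Phi_pos t).le]
  apply mul_le_mul_of_nonneg_left _ (Phi_pos t).le
  have h1 := norm_cos_le (z * t)
  have h2 : (z * t).im = z.im * t := by simp
  rwa [h2] at h1

lemma differentiable_H (R : ℝ) : Differentiable ℂ (H R) := by
  intro z0
  have h := intervalIntegral.hasDerivAt_integral_of_dominated_loc_of_deriv_le
    (μ := volume) (a := 0) (b := R)
    (F := fun (z : ℂ) (t : ℝ) => ((Phi t : ℝ) : ℂ) * Complex.cos (z * t))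
    (F' := fun (z : ℂ) (t : ℝ) => ((Phi t : ℝ) : ℂ) * (-Complex.sin (z * t) * t))
    (x₀ := z0) (bound := fun t => Phi t * (Real.exp ((‖z0‖ + 1) * |t|) * |t|))
    (Metric.ball_mem_nhds z0 one_pos) ?_ ?_ ?_ ?_ ?_ ?_
  · exact h.2.differentiableAt
  · refine Eventually.of_forall fun z => ?_
    exact ((continuous_ofReal.comp continuous_Phi).mul (by fun_prop)).aestronglyMeasurable
  · exact ((continuous_ofReal.comp continuous_Phi).mul (by fun_prop)).intervalIntegrable _ _
  · exact ((continuous_ofReal.comp continuous_Phi).mul (by fun_prop)).aestronglyMeasurable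
  · refine Eventually.of_forall fun t _ z hz => ?_
    have hzn : ‖z‖ ≤ ‖z0‖ + 1 := by
      have : ‖z - z0‖ < 1 := by simpa [dist_eq_norm] using hz
      calc ‖z‖ = ‖z0 + (z - z0)‖ := by congr 1; ring
        _ ≤ ‖z0‖ + ‖z - z0‖ := norm_add_le _ _
        _ ≤ ‖z0‖ + 1 := by linarith
    have hsin : ‖Complex.sin (z * t)‖ ≤ Real.exp ((‖z0‖ + 1) * |t|) := by
      rw [Complex.sin, norm_div, norm_mul, norm_I, mul_one]
      have e1 : ‖cexp (-(z * t) * I)‖ ≤ Real.exp ((‖z0‖ + 1) * |t|) := by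
        rw [norm_exp]
        refine Real.exp_le_exp.2 ((re_le_norm _).trans ?_)
        rw [norm_mul, norm_neg, norm_mul, norm_I, mul_one, norm_real, Real.norm_eq_abs]
        gcongr
      have e2 : ‖cexp ((z * t) * I)‖ ≤ Real.exp ((‖z0‖ + 1) * |t|) := by
        rw [norm_exp]
        refine Real.exp_le_exp.2 ((re_le_norm _).trans ?_)
        rw [norm_mul, norm_mul, norm_I, mul_one, norm_real, Real.norm_eq_abs]
        gcongr
      have e3 := norm_sub_le (cexp (-(z * t) * I)) (cexp ((z * t) * I))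
      have e4 : ‖(2 : ℂ)‖ = 2 := by simp
      rw [e4]
      linarith
    rw [norm_mul, norm_real, Real.norm_of_nonneg (Phi_pos t).le, norm_mul, norm_neg, norm_real,
      Real.norm_eq_abs]
    have := (Phi_pos t).le
    gcongr
  · apply Continuous.intervalIntegrable
    have := continuous_Phi
    fun_prop
  · refine Eventually.of_forall fun t _ z _ => ?_
    have h1 : HasDerivAt (fun z : ℂ => z * t) t z := by
      simpa using (hasDerivAt_id z).mul_const (t : ℂ)
    exact (HasDerivAt.ccos h1).const_mul ((Phi t : ℝ) : ℂ)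

lemma Phi_upper {t : ℝ} (ht : 0 ≤ t) :
    Phi t ≤ 40 * Real.exp (9 * t) * Real.exp (-(Real.pi * Real.exp (4 * t))) := by
  set u : ℝ := Real.pi * Real.exp (4 * t) with hu
  have hpi := Real.pi_gt_three
  have hu3 : 3 ≤ u := by
    have : 1 ≤ Real.exp (4 * t) := Real.one_le_exp (by linarith)
    rw [hu]; nlinarith
  have hterm : ∀ n : ℕ, (2 * ((n : ℝ) + 1) ^ 4 * Real.pi ^ 2 * Real.exp (9 * t)
      - 3 * ((n : ℝ) + 1) ^ 2 * Real.pi * Real.exp (5 * t)) *
      Real.exp (-(((n : ℝ) + 1) ^ 2 * Real.pi * Real.exp (4 * t))) ≤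
      20 * Real.exp (9 * t) * Real.exp (-u) * (1 / 2) ^ n := by
    intro n
    have hn : (0 : ℝ) ≤ n := Nat.cast_nonneg n
    have h1 : ((n : ℝ) + 1) ^ 2 * Real.pi * Real.exp (4 * t) = ((n : ℝ) + 1) ^ 2 * u := by
      rw [hu]; ring
    have h2 : Real.exp (-(((n : ℝ) + 1) ^ 2 * u)) ≤ Real.exp (-u) * Real.exp (-(9 * n)) := by
      rw [← Real.exp_add]
      apply Real.exp_le_exp.2
      have hnn : (n : ℝ) ≤ (n : ℝ) ^ 2 := by
        rcases Nat.eq_zero_or_pos n with h | h
        · rw [h]; simp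
        · have : (1 : ℝ) ≤ n := by exact_mod_cast h
          nlinarith
      nlinarith
    have h3 : ((n : ℝ) + 1) ^ 4 ≤ Real.exp (4 * n) := by
      have h4 : (n : ℝ) + 1 ≤ Real.exp n := Real.add_one_le_exp _
      calc ((n : ℝ) + 1) ^ 4 ≤ (Real.exp n) ^ 4 := by gcongr
        _ = Real.exp (4 * n) := by rw [← Real.exp_nat_mul]; norm_num
    have h5 : Real.exp (4 * n) * Real.exp (-(9 * n)) ≤ (1 / 2) ^ n := by
      rw [← Real.exp_add]
      have : (4 * (n : ℝ) + -(9 * n)) = (n : ℝ) * (-5) := by ring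
      rw [this, Real.exp_nat_mul]
      apply pow_le_pow_left₀ (Real.exp_pos _).le
      have h6 : Real.exp (-5) * Real.exp 5 = 1 := by rw [← Real.exp_add]; norm_num
      have h7 : (2 : ℝ) ≤ Real.exp 5 := by
        have := Real.add_one_le_exp (5 : ℝ)
        linarith
      nlinarith [Real.exp_pos (-5)]
    have hpi2 : Real.pi ^ 2 ≤ 10 := by
      have := Real.pi_lt_d2
      nlinarith
    have h8 : 0 ≤ 3 * ((n : ℝ) + 1) ^ 2 * Real.pi * Real.exp (5 * t) := by positivity
    rw [h1]
    calc (2 * ((n : ℝ) + 1) ^ 4 * Real.pi ^ 2 * Real.exp (9 * t)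
      - 3 * ((n : ℝ) + 1) ^ 2 * Real.pi * Real.exp (5 * t)) * Real.exp (-(((n : ℝ) + 1) ^ 2 * u))
        ≤ (2 * ((n : ℝ) + 1) ^ 4 * Real.pi ^ 2 * Real.exp (9 * t)) *
          Real.exp (-(((n : ℝ) + 1) ^ 2 * u)) := by
          apply mul_le_mul_of_nonneg_right _ (Real.exp_pos _).le
          linarith
      _ ≤ (2 * Real.exp (4 * n) * 10 * Real.exp (9 * t)) * (Real.exp (-u) * Real.exp (-(9 * n))) := by
          gcongr
      _ = 20 * Real.exp (9 * t) * Real.exp (-u) * (Real.exp (4 * n) * Real.exp (-(9 * n))) := by ring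
      _ ≤ _ := by gcongr
  have hs := summable_Phi t
  have hgeo : Summable (fun n : ℕ => 20 * Real.exp (9 * t) * Real.exp (-u) * (1 / 2 : ℝ) ^ n) :=
    (summable_geometric_of_lt_one (by norm_num) (by norm_num)).mul_left _
  have h := hs.tsum_le_tsum hterm hgeo
  rw [tsum_mul_left, tsum_geometric_of_lt_one (by norm_num) (by norm_num)] at h
  calc Phi t ≤ 20 * Real.exp (9 * t) * Real.exp (-u) * (1 - 1 / 2)⁻¹ := h
    _ = _ := by norm_num; ring

lemma gg_upper {R y B : ℝ} (hR : 0 ≤ R) (hy : 0 ≤ y)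
    (hB : ∀ t, 0 ≤ t → t ≤ R → y * t - Real.pi * Real.exp (4 * t) ≤ B) :
    gg R y ≤ 40 * R * Real.exp (9 * R) * Real.exp B := by
  have h1 : gg R y ≤ ∫ t in (0 : ℝ)..R, 40 * Real.exp (9 * R) * Real.exp B := by
    unfold gg
    apply intervalIntegral.integral_mono_on hR ((cont_cosh y).intervalIntegrable _ _)
      (continuous_const.intervalIntegrable _ _)
    intro t ht
    have h2 := Phi_upper ht.1
    have h3 : Real.cosh (y * t) ≤ Real.exp (y * t) := by
      rw [Real.cosh_eq]
      have : Real.exp (-(y * t)) ≤ Real.exp (y * t) := by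
        apply Real.exp_le_exp.2
        have := mul_nonneg hy ht.1
        linarith
      linarith
    calc Phi t * Real.cosh (y * t) ≤
        (40 * Real.exp (9 * t) * Real.exp (-(Real.pi * Real.exp (4 * t)))) * Real.exp (y * t) := by
          apply mul_le_mul h2 h3 (Real.cosh_pos _).le (by positivity)
      _ = 40 * Real.exp (9 * t) * Real.exp (y * t - Real.pi * Real.exp (4 * t)) := by
          rw [mul_assoc, ← Real.exp_add]; ring_nf
      _ ≤ 40 * Real.exp (9 * R) * Real.exp B := by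
          have h4 := hB t ht.1 ht.2
          have h5 := ht.2
          gcongr
  rw [intervalIntegral.integral_const, smul_eq_mul, sub_zero] at h1
  linarith

lemma gg_lower {R y t0 : ℝ} (hy : 0 < y) (h0 : 1 / y ≤ t0) (hR : t0 ≤ R) :
    1 / y * (1 / 2 * Real.exp (y * t0 - 1 - Real.pi * Real.exp (4 * t0))) ≤ gg R y := by
  have hy1 : 0 < 1 / y := by positivity
  have h1 : ∫ t in (t0 - 1 / y)..t0, (1 / 2 * Real.exp (y * t0 - 1 - Real.pi * Real.exp (4 * t0))) ≤
      ∫ t in (t0 - 1 / y)..t0, Phi t * Real.cosh (y * t) := by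
    apply intervalIntegral.integral_mono_on (by linarith) (continuous_const.intervalIntegrable _ _)
      ((cont_cosh y).intervalIntegrable _ _)
    intro t ht
    have ht0 : 0 ≤ t := by linarith [ht.1]
    have h2 : Real.exp (-(Real.pi * Real.exp (4 * t0))) ≤ Phi t := by
      refine le_trans ?_ (Phi_lower ht0)
      apply Real.exp_le_exp.2
      have h3 : Real.exp (4 * t) ≤ Real.exp (4 * t0) := Real.exp_le_exp.2 (by linarith [ht.2])
      nlinarith [Real.pi_pos]
    have h3 : 1 / 2 * Real.exp (y * t0 - 1) ≤ Real.cosh (y * t) := by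
      rw [Real.cosh_eq]
      have h4 : Real.exp (y * t0 - 1) ≤ Real.exp (y * t) := by
        apply Real.exp_le_exp.2
        have h5 : y * (t0 - 1 / y) ≤ y * t := mul_le_mul_of_nonneg_left ht.1 hy.le
        have h6 : y * (t0 - 1 / y) = y * t0 - 1 := by field_simp
        linarith
      have := Real.exp_pos (-(y * t))
      linarith
    calc 1 / 2 * Real.exp (y * t0 - 1 - Real.pi * Real.exp (4 * t0))
        = Real.exp (-(Real.pi * Real.exp (4 * t0))) * (1 / 2 * Real.exp (y * t0 - 1)) := by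
          rw [sub_eq_add_neg _ (Real.pi * Real.exp (4 * t0)), Real.exp_add]; ring
      _ ≤ Phi t * Real.cosh (y * t) := mul_le_mul h2 h3 (by positivity) (Phi_pos t).le
  rw [intervalIntegral.integral_const, smul_eq_mul] at h1
  have h2 : t0 - (t0 - 1 / y) = 1 / y := by ring
  rw [h2] at h1
  refine h1.trans ?_
  unfold gg
  apply intervalIntegral.integral_mono_interval (by linarith) (by linarith) hR
  · exact Eventually.of_forall fun t => mul_nonneg (Phi_pos t).le (Real.cosh_pos _).le
  · exact (cont_cosh y).intervalIntegrable _ _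

lemma gg_pos {R y : ℝ} (hR : 0 < R) : 0 < gg R y := by
  unfold gg
  apply intervalIntegral.intervalIntegral_pos_of_pos ((cont_cosh y).intervalIntegrable _ _) _ hR
  intro t
  exact mul_pos (Phi_pos t) (Real.cosh_pos _)

end

end Pool.Agent.H788R2.Trunc
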