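import Mathlib
import Pool.Agent.H788R2.Trunc2

set_option autoImplicit false
open Filter Topology Complex Metric MeasureTheory

namespace Pool.Agent.H788R2.Trunc

noncomputable section

lemma bound_one {R y t : ℝ} (hy : 4 * (Real.pi * Real.exp (4 * R)) ≤ y) (ht : t ≤ R) :
    y * t - Real.pi * Real.exp (4 * t) ≤ R * y - Real.pi * Real.exp (4 * R) := by
  set lam := Real.pi * Real.exp (4 * R) with hlam
  have hl : 0 < lam := by positivity
  have h1 : Real.pi * Real.exp (4 * t) = lam * Real.exp (-(4 * (R - t))) := by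
    rw [hlam, mul_assoc, ← Real.exp_add]; ring_nf
  have h2 := Real.add_one_le_exp (-(4 * (R - t)))
  rw [h1]
  have h3 : 0 ≤ R - t := by linarith
  nlinarith [mul_le_mul_of_nonneg_left h2 hl.le, mul_le_mul_of_nonneg_right hy h3]

lemma num_one (v : ℝ) : 1 - Real.exp (-v) - v / 2 ≤ 0.1535 := by
  have h1 := Real.add_one_le_exp (Real.log 2 - v)
  have h2 : Real.exp (Real.log 2 - v) = 2 * Real.exp (-v) := by
    rw [sub_eq_add_neg, Real.exp_add, Real.exp_log (by norm_num)]
  have h3 := Real.log_two_gt_d9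
  rw [h2] at h1
  linarith

lemma bound_two {R y t : ℝ} (hy : 2 * (Real.pi * Real.exp (4 * R)) ≤ y) (ht : t ≤ R) :
    y * t - Real.pi * Real.exp (4 * t) ≤
      R * y - Real.pi * Real.exp (4 * R) + 0.1535 * (Real.pi * Real.exp (4 * R)) := by
  set lam := Real.pi * Real.exp (4 * R) with hlam
  have hl : 0 < lam := by positivity
  have h1 : Real.pi * Real.exp (4 * t) = lam * Real.exp (-(4 * (R - t))) := by
    rw [hlam, mul_assoc, ← Real.exp_add]; ring_nf
  have h2 := num_one (4 * (R - t))
  rw [h1]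
  have h3 : 0 ≤ R - t := by linarith
  nlinarith [mul_le_mul_of_nonneg_left h2 hl.le, mul_le_mul_of_nonneg_right hy h3]

lemma num_two : -1 + 3.125e-6 ≤ (399 / 400 : ℝ) * Real.log (399 / 400) - 399 / 400 := by
  have h1 := Real.abs_log_sub_add_sum_range_le (x := 1 / 400) (by rw [abs_of_pos] <;> norm_num) 3
  rw [show (1 : ℝ) - 1 / 400 = 399 / 400 by norm_num] at h1
  simp only [Finset.sum_range_succ, Finset.sum_range_zero] at h1
  have h2 := (abs_le.1 h1).1
  rw [abs_of_pos (by norm_num : (0 : ℝ) < 1 / 400)] at h2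
  norm_num at h2 ⊢
  linarith

lemma exp20 : (480000000 : ℝ) ≤ Real.exp 20 := by
  have h1 := Real.exp_one_gt_d9
  have h2 : Real.exp 20 = Real.exp 1 ^ 20 := by rw [← Real.exp_nat_mul]; norm_num
  rw [h2]
  calc (480000000 : ℝ) ≤ 2.7182818283 ^ 20 := by norm_num
    _ ≤ _ := by gcongr

lemma log_le_four {x : ℝ} (hx : 0 < x) (h : x ≤ 54) : Real.log x ≤ 4 := by
  rw [Real.log_le_iff_le_exp hx]
  refine h.trans ?_
  have h1 := Real.exp_one_gt_d9
  have h2 : Real.exp 4 = Real.exp 1 ^ 4 := by rw [← Real.exp_nat_mul]; norm_num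
  rw [h2]
  calc (54 : ℝ) ≤ 2.7182818283 ^ 4 := by norm_num
    _ ≤ _ := by gcongr

/-- For `R ≥ 5` the truncated transform `H_R` has a zero with imaginary part larger than
`2 π e^{4R}`. -/
theorem main {R : ℝ} (hR : 5 ≤ R) : ∃ z : ℂ, H R z = 0 ∧ 2 * Real.pi * Real.exp (4 * R) < z.im := by
  by_contra hcon
  push Not at hcon
  have hR0 : 0 ≤ R := by linarith
  have hRp : 0 < R := by linarith
  set lam : ℝ := Real.pi * Real.exp (4 * R) with hlam
  have hpi := Real.pi_gt_d2
  have hpi2 := Real.pi_lt_d2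
  have hexp : 480000000 * (1 + 4 * (R - 5)) ≤ Real.exp (4 * R) := by
    have h1 := exp20
    have h2 := Real.add_one_le_exp (4 * (R - 5))
    have h3 : Real.exp (4 * R) = Real.exp 20 * Real.exp (4 * (R - 5)) := by
      rw [← Real.exp_add]; ring_nf
    rw [h3]
    have h4 : 0 ≤ 1 + 4 * (R - 5) := by linarith
    calc 480000000 * (1 + 4 * (R - 5)) ≤ Real.exp 20 * (1 + 4 * (R - 5)) := by gcongr
      _ ≤ _ := by gcongr; linarith
  have hl : 1500000000 * (1 + 4 * (R - 5)) ≤ lam := by
    have h4 : 0 ≤ 1 + 4 * (R - 5) := by linarith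
    rw [hlam]
    nlinarith [Real.exp_pos (4 * R)]
  have hl1 : 1500000000 ≤ lam := by nlinarith
  have hl0 : 0 < lam := by linarith
  set Y : ℝ := 4 * lam with hY
  have hY0 : 0 < Y := by positivity
  -- error terms
  set E1 : ℝ := Real.log (40 * R * Real.exp (9 * R)) with hE1
  have hE1b : E1 ≤ 10 * R + 3 := by
    rw [hE1, Real.log_mul (by positivity) (by positivity), Real.log_mul (by positivity) (by positivity),
      Real.log_exp]
    have h1 := log_le_four (x := 40) (by norm_num) (by norm_num)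
    have h2 := Real.log_le_sub_one_of_pos hRp
    linarith
  have hE2 : ∀ y, 0 < y → y ≤ 4.04 * lam → 1 + Real.log (2 * y) ≤ 4 * R + 5 := by
    intro y hy0 hy
    have h1 : Real.log (2 * y) ≤ Real.log (26 * Real.exp (4 * R)) := by
      apply Real.log_le_log (by positivity)
      rw [hlam] at hy
      nlinarith [Real.exp_pos (4 * R)]
    rw [Real.log_mul (show (26 : ℝ) ≠ 0 by norm_num) (Real.exp_pos _).ne', Real.log_exp] at h1
    have h2 := log_le_four (x := 26) (by norm_num) (by norm_num)
    linarith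
  -- upper bounds
  have hup1 : ∀ y, Y ≤ y → Real.log (gg R y) ≤ E1 + (R * y - lam) := by
    intro y hy
    have h1 := gg_upper hR0 (hY0.le.trans hy) (fun t _ ht => bound_one hy ht)
    rw [← hlam] at h1
    have h2 := Real.log_le_log (gg_pos hRp) h1
    rwa [Real.log_mul (by positivity) (by positivity), Real.log_exp] at h2
  have hup2 : ∀ y, 2 * lam ≤ y → Real.log (gg R y) ≤ E1 + (R * y - lam + 0.1535 * lam) := by
    intro y hy
    have h1 := gg_upper hR0 (by linarith : 0 ≤ y) (fun t _ ht => bound_two hy ht)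
    rw [← hlam] at h1
    have h2 := Real.log_le_log (gg_pos hRp) h1
    rwa [Real.log_mul (by positivity) (by positivity), Real.log_exp] at h2
  -- lower bounds
  have hlow : ∀ y t0, 0 < y → 1 / y ≤ t0 → t0 ≤ R →
      y * t0 - Real.pi * Real.exp (4 * t0) - (1 + Real.log (2 * y)) ≤ Real.log (gg R y) := by
    intro y t0 hy h0 h1
    have h2 := Real.log_le_log (by positivity) (gg_lower hy h0 h1)
    have h3 : 1 / y * (1 / 2 * Real.exp (y * t0 - 1 - Real.pi * Real.exp (4 * t0))) =
        Real.exp (y * t0 - 1 - Real.pi * Real.exp (4 * t0)) / (2 * y) := by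
      field_simp
    rw [h3, Real.log_div (by positivity) (by positivity), Real.log_exp] at h2
    linarith
  have hYinv : 1 / Y ≤ R := by
    have : 1 / Y ≤ 1 := by
      rw [div_le_one hY0, hY]; linarith
    linarith
  -- the four points
  set s : ℝ := Y / 400 with hs
  have hs0 : 0 < s := by positivity
  have hLY : R * Y - lam - (4 * R + 5) ≤ Real.log (gg R Y) := by
    have h1 := hlow Y R hY0 hYinv le_rfl
    have h2 := hE2 Y hY0 (by rw [hY]; linarith)
    rw [← hlam] at h1
    linarith
  have hLYs : R * (Y + s) - lam - (4 * R + 5) ≤ Real.log (gg R (Y + s)) := by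
    have h0 : 1 / (Y + s) ≤ R := by
      refine le_trans ?_ hYinv
      exact one_div_le_one_div_of_le hY0 (by linarith)
    have h1 := hlow (Y + s) R (by linarith) h0 le_rfl
    have h2 := hE2 (Y + s) (by linarith) (by rw [hs, hY]; linarith)
    rw [← hlam] at h1
    linarith
  have hLYm : R * (Y - s) - lam + 3.125e-6 * lam - (4 * R + 5) ≤ Real.log (gg R (Y - s)) := by
    set t0 : ℝ := R + Real.log (399 / 400) / 4 with ht0
    have hlog : Real.log (399 / 400) < 0 := Real.log_neg (by norm_num) (by norm_num)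
    have hlog2 : -1 ≤ Real.log (399 / 400) := by
      have := num_two
      nlinarith
    have hYs : Y - s = Y * (399 / 400) := by rw [hs]; ring
    have hYs0 : 0 < Y - s := by rw [hYs]; positivity
    have h0 : 1 / (Y - s) ≤ t0 := by
      have h1 : 1 / (Y - s) ≤ 1 := by
        rw [div_le_one hYs0, hYs, hY]
        linarith
      linarith
    have h1 := hlow (Y - s) t0 hYs0 h0 (by linarith)
    have h2 := hE2 (Y - s) hYs0 (by rw [hs, hY]; linarith)
    have h3 : Real.pi * Real.exp (4 * t0) = lam * (399 / 400) := by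
      have : 4 * t0 = 4 * R + Real.log (399 / 400) := by rw [ht0]; ring
      rw [this, Real.exp_add, Real.exp_log (by norm_num), hlam]; ring
    rw [h3] at h1
    have h4 := num_two
    have h5 : (Y - s) * t0 = R * (Y - s) + lam * ((399 / 400) * Real.log (399 / 400)) := by
      rw [hYs, ht0, hY]; ring
    rw [h5] at h1
    nlinarith [mul_le_mul_of_nonneg_left h4 hl0.le]
  have hUY := hup1 Y le_rfl
  have hUY2 := hup1 (Y + 2 * s) (by linarith)
  -- apply the kink lemma
  set M : ℝ := 0.1535 * lam + (14 * R + 8) with hM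
  have hM0 : 0 < M := by rw [hM]; positivity
  have hHn : ∀ y : ℝ, Real.log ‖H R ((y : ℂ) * I)‖ = Real.log (gg R y) := by
    intro y
    rw [H_I, Complex.norm_real, Real.norm_of_nonneg (gg_pos hRp).le]
  have hk := kink (F := H R) (c := (Y : ℂ) * I) (ρ := Y / 2) (M := M) (a := R) (τ := 1 / 200)
    (by positivity) hM0 (differentiable_H R).differentiableOn (by
      intro z hz h0
      have h1 := hcon z h0
      have h2 : |(z - (Y : ℂ) * I).im| < Y / 2 := by
        refine lt_of_le_of_lt (Complex.abs_im_le_norm _) ?_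
        rw [← dist_eq_norm]; exact hz
      have h3 : (z - (Y : ℂ) * I).im = z.im - Y := by simp
      rw [h3] at h2
      have h4 := (abs_lt.1 h2).1
      have h5 : 2 * Real.pi * Real.exp (4 * R) = 2 * lam := by rw [hlam]; ring
      rw [h5] at h1
      linarith) (by
      intro z hz
      have h2 : |(z - (Y : ℂ) * I).im| < Y / 2 := by
        refine lt_of_le_of_lt (Complex.abs_im_le_norm _) ?_
        rw [← dist_eq_norm]; exact hz
      have h3 : (z - (Y : ℂ) * I).im = z.im - Y := by simp
      rw [h3] at h2 ⊢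
      have h4 := (abs_lt.1 h2).1
      have h5 := hup2 z.im (by linarith)
      rw [hHn Y]
      have h6 : Real.log ‖H R z‖ ≤ Real.log (gg R z.im) := by
        rcases (norm_nonneg (H R z)).eq_or_lt with h7 | h7
        · exfalso
          have h8 : H R z = 0 := norm_eq_zero.1 h7.symm
          have h1 := hcon z h8
          have h5 : 2 * Real.pi * Real.exp (4 * R) = 2 * lam := by rw [hlam]; ring
          rw [h5] at h1
          linarith
        · exact Real.log_le_log h7 (norm_H_le hR0 z)
      rw [hM]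
      linarith) (by norm_num) (by norm_num)
  have e0 : (1 / 200 : ℝ) * (Y / 2) = s := by rw [hs]; ring
  rw [e0] at hk
  have e1 : (Y : ℂ) * I + ((2 * s : ℝ) : ℂ) * I = ((Y + 2 * s : ℝ) : ℂ) * I := by push_cast; ring
  have e2 : (Y : ℂ) * I + (s : ℂ) * I = ((Y + s : ℝ) : ℂ) * I := by push_cast; ring
  have e3 : (Y : ℂ) * I + ((-s : ℝ) : ℂ) * I = ((Y - s : ℝ) : ℂ) * I := by push_cast; ring
  rw [e1, e2, e3, hHn, hHn, hHn, hHn] at hk
  have hk2 := (abs_le.1 hk).1
  have e4 : 2 * M * (4 * (1 / 200 : ℝ)) ^ 3 / (1 - 4 * (1 / 200)) = M / 61250 := by ring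
  rw [e4, hM] at hk2
  have hfin : 3.125e-6 * lam ≤ 56 * R + 32 + (0.1535 * lam + (14 * R + 8)) / 61250 := by
    nlinarith
  norm_num at hfin
  nlinarith

end

end Pool.Agent.H788R2.Trunc
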